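import Pool.Agent.Helper3.Cut.Final
import Pool.Agent.H29.Cut.Spiral3

/-! # MP_86dbc7_gt, packet Q1b: the power formula -/

set_option autoImplicit false

namespace Pool.Agent.Helper3.Cut

open Pool.Agent.Helper21.Cut

theorem power_formula {V X : Type*} (key : V → V → ℝ) (p n : ℕ) [Fact p.Prime] (hn : 0 < n)
    (g : Fin n → Letter V X) (hne : ∀ i, (g i).u ≠ (g i).v)
    (hg : ∀ i : Fin n, (g i).v = (g ⟨(i + 1) % n, Nat.mod_lt _ hn⟩).u)
    (lab : List X → ZMod p) (hrot : ∀ A B, lab (A ++ B) = lab (B ++ A)) :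
    NN key lab (p - 1) ((List.range p).flatMap fun a =>
      (List.finRange n).map fun i => gl g p (i, a)) =
    lab ((List.finRange n).map fun i => (g i).z) ^ p :=
  power_formula_of key p hn g
    (fun L G k => Pool.Agent.H29.Cut.spiral_vanish key p n (Fact.out) hn g hne hg L G k) hg lab hrot

end Pool.Agent.Helper3.Cut
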