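import Pool.Agent.Helper21.Cut.NWMoves
import Pool.Agent.Helper3.Cut.PowerFormula

/-! # MP_86dbc7_gt: the invariant of a power of a closed walk -/

set_option autoImplicit false

namespace Pool.Agent.Helper3.Cut

open Pool.Agent.Helper21.Cut

/-- the repetition of a closed word is a closed word -/
theorem validC_replicate {S : Type*} {adj : S → S → Prop} (w : List S) (hw : w ≠ [])
    (h : ValidC adj w) (k : ℕ) : ValidC adj (List.replicate k w).flatten := by
  obtain ⟨d, _⟩ := List.exists_mem_of_ne_nil w hw
  rw [validC_iff w hw d] at h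
  obtain ⟨hc, ha⟩ := h
  have key : ∀ k : ℕ, (List.replicate (k + 1) w).flatten ≠ [] ∧
      List.IsChain adj (List.replicate (k + 1) w).flatten ∧
      (List.replicate (k + 1) w).flatten.headD d = w.headD d ∧
      (List.replicate (k + 1) w).flatten.getLastD d = w.getLastD d := by
    intro k
    induction k with
    | zero => simp [hw, hc]
    | succ k ih =>
      obtain ⟨h1, h2, h3, h4⟩ := ih
      have e : (List.replicate (k + 1 + 1) w).flatten = w ++ (List.replicate (k + 1) w).flatten := by
        rw [List.replicate_succ, List.flatten_cons]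
      rw [e]
      refine ⟨by simp [hw], ?_, headD_append hw _ _, ?_⟩
      · rw [List.isChain_append]
        refine ⟨hc, h2, ?_⟩
        intro x hx y hy
        have hx' : w.getLastD d = x := by
          cases w with
          | nil => exact absurd rfl hw
          | cons a w =>
            rcases (a :: w).eq_nil_or_concat with h | ⟨l', x', h⟩
            · simp at h
            · rw [h] at hx ⊢; simp at hx ⊢; exact hx
        have hy' : (List.replicate (k + 1) w).flatten.headD d = y := by
          generalize (List.replicate (k + 1) w).flatten = W at *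
          cases W with
          | nil => exact absurd rfl h1
          | cons a W => simpa using hy
        rw [h3] at hy'
        rw [← hx', ← hy']
        exact ha
      · rw [getLastD_append h1, h4]
  cases k with
  | zero => simp [ValidC]
  | succ k =>
    obtain ⟨h1, h2, h3, h4⟩ := key k
    rw [validC_iff _ h1 d, h3, h4]
    exact ⟨h2, ha⟩

theorem walk_replicate {V X : Type*} [PseudoMetricSpace X] {δ : ℝ} {C : Cover V X δ}
    {w : List (Dart V X)} (hne : w ≠ []) (hw : Walk C w) (k : ℕ) :
    Walk C (List.replicate k w).flatten := by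
  refine ⟨validC_replicate w hne hw.valid k, fun d hd => hw.adm d ?_⟩
  rw [List.mem_flatten] at hd
  obtain ⟨l, hl, hd⟩ := hd
  rw [List.mem_replicate] at hl
  rw [hl.2] at hd
  exact hd

/-- consecutive darts of a closed walk -/
theorem walk_next {V X : Type*} [PseudoMetricSpace X] {δ : ℝ} {C : Cover V X δ}
    {w : List (Dart V X)} (hn : 0 < w.length) (hw : Walk C w) (i : Fin w.length) :
    (w.get i).v = (w.get ⟨(i + 1) % w.length, Nat.mod_lt _ hn⟩).u := by
  have hne : w ≠ [] := List.ne_nil_of_length_pos hn
  have h := hw.valid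
  rw [validC_iff w hne (w.get i)] at h
  obtain ⟨h1, h2⟩ := h
  by_cases hi : (i : ℕ) + 1 < w.length
  · have e : ((i : ℕ) + 1) % w.length = i + 1 := Nat.mod_eq_of_lt hi
    have h3 := List.isChain_iff_getElem.1 h1 i hi
    simp only [List.get_eq_getElem, e]
    exact h3
  · have hi' : (i : ℕ) + 1 = w.length := by have := i.2; omega
    have e : ((i : ℕ) + 1) % w.length = 0 := by rw [hi', Nat.mod_self]
    have e1 : w.getLastD (w.get i) = w[(i : ℕ)] := by
      have : w.getLastD (w.get i) = w.getLast hne := by
        rw [List.getLastD_eq_getLast?, List.getLast?_eq_some_getLast hne]; rfl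
      rw [this, List.getLast_eq_getElem]
      congr 1
      omega
    have e2 : w.headD (w.get i) = w[0] := by
      cases w with
      | nil => exact absurd rfl hne
      | cons a w => rfl
    rw [e1, e2] at h2
    simp only [List.get_eq_getElem, e]
    exact h2

theorem NN_map {S V X R : Type*} [CommRing R] (key : V → V → ℝ) (lab : List X → R) (k : ℕ)
    (f : S → Letter V X) (W : List S) :
    NN key lab k (W.map f) = nuC (fun x y z w => Jl key (f x) (f y) (f z) (f w))
      (fun B => lab ((B.map f).map Letter.z)) k W := by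
  cases W with
  | nil => rfl
  | cons b W =>
    change nu (Jl key) (fun B => lab (B.map Letter.z)) k (f b) (W.map f) = _
    rw [nu_map]
    rfl

theorem NW_power {V X : Type*} [PseudoMetricSpace X] {δ : ℝ} {p : ℕ} [Fact p.Prime]
    (C : Cover V X δ) (hδ : 0 ≤ δ) {ρ Λ Lw : ℝ} {lab : List X → ZMod p}
    (hlab : LabOK δ ρ Λ lab) (hρ : 4 * δ < ρ) (hΛ : Lw - ρ + 8 * δ < Λ)
    (w : List (Dart V X)) (hne : w ≠ []) (hw : Walk C w)
    (hlen : plen (zs (List.replicate p w).flatten) ≤ Lw) :
    NW C lab (List.replicate p w).flatten = lab (zs w) ^ p := by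
  have hn : 0 < w.length := List.length_pos_of_ne_nil hne
  let n := w.length
  let D : Fin n × ℕ → Dart V X := fun x => w.get x.1
  let y : Fin n × ℕ → ℤ := fun x => (p : ℤ) * (x.1 : ℕ) + x.2 + 1
  let W : List (Fin n × ℕ) := (List.range p).flatMap fun a =>
    (List.finRange n).map fun i => (i, a)
  have hWD : W.map D = (List.replicate p w).flatten := by
    change ((List.range p).flatMap fun a => (List.finRange n).map fun i => (i, a)).map D = _
    rw [List.map_flatMap]
    have h1 : ∀ a : ℕ, (((List.finRange n).map fun i => (i, a)).map D) = w := by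
      intro a
      rw [List.map_map]
      change (List.finRange w.length).map w.get = w
      simp
    simp only [h1]
    rw [List.flatMap, List.map_const', List.length_range]
  have hmem : ∀ x : Fin n × ℕ, x ∈ W → x.2 < p := by
    intro x hx
    simp only [W, List.mem_flatMap, List.mem_range, List.mem_map, List.mem_finRange,
      true_and] at hx
    obtain ⟨a, ha, i, rfl⟩ := hx
    exact ha
  have hinj : ∀ i ∈ W, ∀ j ∈ W, y i = y j → i = j := by
    intro i hi j hj h
    have h1 := hmem i hi
    have h2 := hmem j hj
    have h3 : p * (i.1 : ℕ) + i.2 = p * (j.1 : ℕ) + j.2 := by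
      have : (p : ℤ) * ((i.1 : ℕ) : ℤ) + (i.2 : ℤ) + 1 = (p : ℤ) * ((j.1 : ℕ) : ℤ) + (j.2 : ℤ) + 1 :=
        h
      have h4 : (p : ℤ) * ((i.1 : ℕ) : ℤ) + (i.2 : ℤ) = (p : ℤ) * ((j.1 : ℕ) : ℤ) + (j.2 : ℤ) := by
        linarith
      exact_mod_cast h4
    have hp : 0 < p := (Fact.out : p.Prime).pos
    have h5 : (i.1 : ℕ) = (j.1 : ℕ) := by
      have e1 : (p * (i.1 : ℕ) + i.2) / p = i.1 := by
        rw [Nat.mul_add_div hp, Nat.div_eq_of_lt h1, add_zero]
      have e2 : (p * (j.1 : ℕ) + j.2) / p = j.1 := by
        rw [Nat.mul_add_div hp, Nat.div_eq_of_lt h2, add_zero]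
      rw [← e1, ← e2, h3]
    have h6 : i.2 = j.2 := by
      rw [h5] at h3
      omega
    exact Prod.ext (Fin.ext h5) h6
  have hnd : W.Nodup := by
    change ((List.range p).flatMap fun a => (List.finRange n).map fun i => (i, a)).Nodup
    rw [List.nodup_flatMap]
    refine ⟨fun a _ => (List.nodup_finRange n).map (fun i j h => (Prod.ext_iff.1 h).1), ?_⟩
    refine List.Nodup.pairwise_of_forall_ne (List.nodup_range) ?_
    intro a _ b _ hab
    change List.Disjoint _ _
    rw [List.disjoint_left]
    intro x hx hx'
    simp only [List.mem_map, List.mem_finRange, true_and] at hx hx'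
    obtain ⟨i, rfl⟩ := hx
    obtain ⟨j, h⟩ := hx'
    exact hab (Prod.ext_iff.1 h).2.symm
  have hpos : ∀ i ∈ W, 0 < y i := by
    intro i _
    change 0 < (p : ℤ) * ((i.1 : ℕ) : ℤ) + (i.2 : ℤ) + 1
    positivity
  have hw' : Walk C (W.map D) := by rw [hWD]; exact walk_replicate hne hw p
  have hlen' : plen (zs (W.map D)) ≤ Lw := by rw [hWD]; exact hlen
  have h1 := nuC_eq_NW C hδ hlab hρ.le hΛ D y W hnd hpos hinj hw' hlen'
  rw [hWD] at h1
  rw [← h1]
  let g : Fin n → Letter V X := fun i => (w.get i).at 0
  have h2 := power_formula C.key p n hn g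
    (fun i => (hw.adm _ (w.get_mem i)).ne) (fun i => walk_next hn hw i) lab hlab.rot
  have h3 : ((List.range p).flatMap fun a => (List.finRange n).map fun i => gl g p (i, a))
      = W.map (gl g p) := by
    change _ = ((List.range p).flatMap fun a => (List.finRange n).map fun i => (i, a)).map (gl g p)
    rw [List.map_flatMap]
    simp only [List.map_map, Function.comp_def]
  rw [h3, NN_map] at h2
  have h4 : ((List.finRange n).map fun i => (g i).z) = zs w := by
    have h6 : (List.finRange w.length).map w.get = w := by simp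
    unfold zs
    conv_rhs => rw [← h6]
    rw [List.map_map]
    rfl
  rw [h4] at h2
  rw [← h2]
  have h5 : ∀ B : List (Fin n × ℕ), dec D B = (B.map (gl g p)).map Letter.z := by
    intro B
    rw [List.map_map]
    rfl
  simp only [h5]
  rfl

end Pool.Agent.Helper3.Cut
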