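import Pool.Agent.Helper21.Cut.Defs2

/-! # Generic lemmas on cut sums (MP_86dbc7_gt, packet Q1b) -/

set_option autoImplicit false

namespace Pool.Agent.Helper3.Cut

open Pool.Agent.Helper21.Cut

variable {S T R R' : Type*}

/-! ### sums over splittings -/

theorem sp_congr [AddCommMonoid R] (W : List S) {f g : List S → List S → R}
    (h : ∀ A B, A ++ B = W → f A B = g A B) : sp W f = sp W g := by
  induction W generalizing f g with
  | nil => exact h [] [] rfl
  | cons a W ih =>
    simp only [sp]
    rw [h [] (a :: W) rfl, ih (fun A B hAB => h (a :: A) B (by simp [hAB]))]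

theorem spn_congr [AddCommMonoid R] (W : List S) {f g : List S → List S → R}
    (h : ∀ B C, B ≠ [] → B ++ C = W → f B C = g B C) : spn W f = spn W g := by
  cases W with
  | nil => rfl
  | cons a W =>
    exact sp_congr W fun A B hAB => h (a :: A) B (by simp) (by simp [hAB])

theorem sp_hom [AddCommMonoid R] [AddCommMonoid R'] (φ : R →+ R') (W : List S)
    (f : List S → List S → R) : φ (sp W f) = sp W fun A B => φ (f A B) := by
  induction W generalizing f with
  | nil => rfl
  | cons a W ih => simp only [sp, map_add, ih]

theorem spn_hom [AddCommMonoid R] [AddCommMonoid R'] (φ : R →+ R') (W : List S)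
    (f : List S → List S → R) : φ (spn W f) = spn W fun A B => φ (f A B) := by
  cases W with
  | nil => simp [spn]
  | cons a W => exact sp_hom φ W _

theorem sp_add [AddCommMonoid R] (W : List S) (f g : List S → List S → R) :
    sp W (fun A B => f A B + g A B) = sp W f + sp W g := by
  induction W generalizing f g with
  | nil => rfl
  | cons a W ih => simp only [sp, ih]; abel

theorem sp_zero [AddCommMonoid R] (W : List S) :
    sp W (fun _ _ => (0 : R)) = 0 := by
  induction W with
  | nil => rfl
  | cons a W ih => simp only [sp, ih, add_zero]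

theorem spn_add [AddCommMonoid R] (W : List S) (f g : List S → List S → R) :
    spn W (fun A B => f A B + g A B) = spn W f + spn W g := by
  cases W with
  | nil => simp [spn]
  | cons a W => exact sp_add W _ _

theorem spn_zero [AddCommMonoid R] (W : List S) :
    spn W (fun _ _ => (0 : R)) = 0 := by
  cases W with
  | nil => rfl
  | cons a W => exact sp_zero W

theorem sp_sum [AddCommMonoid R] {ι : Type*} (s : Finset ι) (W : List S)
    (f : ι → List S → List S → R) :
    sp W (fun A B => ∑ i ∈ s, f i A B) = ∑ i ∈ s, sp W (f i) := by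
  classical
  induction s using Finset.induction_on with
  | empty => simp [sp_zero]
  | insert a s ha ih => simp only [Finset.sum_insert ha, sp_add, ih]

theorem spn_sum [AddCommMonoid R] {ι : Type*} (s : Finset ι) (W : List S)
    (f : ι → List S → List S → R) :
    spn W (fun A B => ∑ i ∈ s, f i A B) = ∑ i ∈ s, spn W (f i) := by
  cases W with
  | nil => simp [spn]
  | cons a W => exact sp_sum s W _

theorem sp_mem [AddCommMonoid R] (M : AddSubmonoid R) (W : List S) {f : List S → List S → R}
    (h : ∀ A B, A ++ B = W → f A B ∈ M) : sp W f ∈ M := by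
  induction W generalizing f with
  | nil => exact h [] [] rfl
  | cons a W ih =>
    exact M.add_mem (h [] (a :: W) rfl) (ih fun A B hAB => h (a :: A) B (by simp [hAB]))

theorem spn_mem [AddCommMonoid R] (M : AddSubmonoid R) (W : List S) {f : List S → List S → R}
    (h : ∀ B C, B ≠ [] → B ++ C = W → f B C ∈ M) : spn W f ∈ M := by
  cases W with
  | nil => exact M.zero_mem
  | cons a W =>
    exact sp_mem M W fun A B hAB => h (a :: A) B (by simp) (by simp [hAB])

theorem sp_eq_sum [AddCommMonoid R] (W : List S) (f : List S → List S → R) :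
    sp W f = ∑ i ∈ Finset.range (W.length + 1), f (W.take i) (W.drop i) := by
  induction W generalizing f with
  | nil => simp [sp]
  | cons a W ih =>
    simp only [sp, ih, List.length_cons]
    rw [Finset.sum_range_succ' _ (W.length + 1)]
    simp [add_comm]

theorem spn_eq_sum [AddCommMonoid R] (W : List S) (f : List S → List S → R) :
    spn W f = ∑ i ∈ Finset.range W.length, f (W.take (i + 1)) (W.drop (i + 1)) := by
  cases W with
  | nil => simp [spn]
  | cons a W => simp only [spn, sp_eq_sum, List.length_cons]; rfl

theorem sp_map [AddCommMonoid R] (φ : S → T) (W : List S) (f : List T → List T → R) :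
    sp (W.map φ) f = sp W fun A B => f (A.map φ) (B.map φ) := by
  induction W generalizing f with
  | nil => rfl
  | cons a W ih => simp only [List.map_cons, sp, ih, List.map_nil]

theorem spn_map [AddCommMonoid R] (φ : S → T) (W : List S) (f : List T → List T → R) :
    spn (W.map φ) f = spn W fun A B => f (A.map φ) (B.map φ) := by
  cases W with
  | nil => rfl
  | cons a W => simp only [List.map_cons, spn, sp_map]

/-! ### sums over cuts -/

/-- sum over the decompositions `W = A ++ (B ++ C)`, `B ≠ []` -/
def cs [AddCommMonoid R] (W : List S) (f : List S → List S → List S → R) : R :=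
  sp W fun A D => spn D fun B C => f A B C

theorem cs_congr [AddCommMonoid R] (W : List S) {f g : List S → List S → List S → R}
    (h : ∀ A B C, B ≠ [] → A ++ (B ++ C) = W → f A B C = g A B C) : cs W f = cs W g :=
  sp_congr W fun A D hD => spn_congr D fun B C hB hC => h A B C hB (by rw [hC, hD])

theorem cs_hom [AddCommMonoid R] [AddCommMonoid R'] (φ : R →+ R') (W : List S)
    (f : List S → List S → List S → R) : φ (cs W f) = cs W fun A B C => φ (f A B C) := by
  unfold cs; rw [sp_hom]; exact sp_congr W fun A D _ => spn_hom φ D _

theorem cs_add [AddCommMonoid R] (W : List S) (f g : List S → List S → List S → R) :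
    cs W (fun A B C => f A B C + g A B C) = cs W f + cs W g := by
  unfold cs; rw [← sp_add]; exact sp_congr W fun A D _ => spn_add D _ _

theorem cs_sum [AddCommMonoid R] {ι : Type*} (s : Finset ι) (W : List S)
    (f : ι → List S → List S → List S → R) :
    cs W (fun A B C => ∑ i ∈ s, f i A B C) = ∑ i ∈ s, cs W (f i) := by
  unfold cs
  rw [← sp_sum]; exact sp_congr W fun A D _ => spn_sum s D _

theorem cs_mem [AddCommMonoid R] (M : AddSubmonoid R) (W : List S)
    {f : List S → List S → List S → R}
    (h : ∀ A B C, B ≠ [] → A ++ (B ++ C) = W → f A B C ∈ M) : cs W f ∈ M :=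
  sp_mem M W fun A D hD => spn_mem M D fun B C hB hC => h A B C hB (by rw [hC, hD])

theorem cs_map [AddCommMonoid R] (φ : S → T) (W : List S) (f : List T → List T → List T → R) :
    cs (W.map φ) f = cs W fun A B C => f (A.map φ) (B.map φ) (C.map φ) := by
  unfold cs; rw [sp_map]; exact sp_congr W fun A D _ => spn_map φ D _

theorem cs_eq_sum [AddCommMonoid R] (W : List S) (f : List S → List S → List S → R) :
    cs W f = ∑ i ∈ Finset.range (W.length + 1), ∑ j ∈ Finset.range (W.length - i),
      f (W.take i) ((W.drop i).take (j + 1)) ((W.drop i).drop (j + 1)) := by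
  unfold cs; rw [sp_eq_sum]
  refine Finset.sum_congr rfl fun i _ => ?_
  rw [spn_eq_sum, List.length_drop]

/-! ### `nuF` -/

theorem nuF_succ [CommRing R] (J : S → S → S → S → ℤ) (lam F : List S → R) (k : ℕ) (b : S)
    (W : List S) : nuF J lam F (k + 1) b W = cs W fun A B C =>
      (J (A.getLastD b) (B.headD b) (B.getLastD b) (C.headD b) : R) * lam B *
        nuF J lam F k b (A ++ C) := rfl

theorem nu_succ [CommRing R] (J : S → S → S → S → ℤ) (lam : List S → R) (k : ℕ) (b : S)
    (W : List S) : nu J lam (k + 1) b W = cs W fun A B C =>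
      (J (A.getLastD b) (B.headD b) (B.getLastD b) (C.headD b) : R) * lam B *
        nu J lam k b (A ++ C) := rfl

theorem nuF_self [CommRing R] (J : S → S → S → S → ℤ) (lam : List S → R) (k : ℕ) (b : S)
    (W : List S) : nuF J lam lam k b W = nu J lam k b W := by
  induction k generalizing W with
  | zero => rfl
  | succ k ih =>
    rw [nuF_succ, nu_succ]
    exact cs_congr W fun A B C _ _ => by rw [ih]

theorem nuF_hom [CommRing R] [CommRing R'] (φ : R →+* R') (J : S → S → S → S → ℤ)
    (lam F : List S → R) (k : ℕ) (b : S) (W : List S) :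
    φ (nuF J lam F k b W) = nuF J (fun B => φ (lam B)) (fun B => φ (F B)) k b W := by
  induction k generalizing W with
  | zero => rfl
  | succ k ih =>
    rw [nuF_succ, nuF_succ]
    refine (cs_hom φ.toAddMonoidHom W _).trans ?_
    refine cs_congr W fun A B C _ _ => ?_
    change φ _ = _
    rw [map_mul, map_mul, map_intCast, ih]

theorem nu_hom [CommRing R] [CommRing R'] (φ : R →+* R') (J : S → S → S → S → ℤ)
    (lam : List S → R) (k : ℕ) (b : S) (W : List S) :
    φ (nu J lam k b W) = nu J (fun B => φ (lam B)) k b W := by
  rw [← nuF_self, ← nuF_self, nuF_hom]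

theorem getLastD_mem (A : List S) (b : S) : A.getLastD b ∈ b :: A := by
  cases A with
  | nil => simp
  | cons a A =>
    rw [List.getLastD_cons]
    have : (A.getLastD a) ∈ a :: A := getLastD_mem A a
    exact List.mem_cons_of_mem _ this

theorem headD_mem (A : List S) (b : S) : A.headD b ∈ b :: A := by
  cases A <;> simp

/-- congruence for `nuF`: only the letters of the word matter -/
theorem nuF_congr [CommRing R] {J J' : S → S → S → S → ℤ} {lam lam' F F' : List S → R}
    (P : S → Prop)
    (hJ : ∀ x y z w, P x → P y → P z → P w → J x y z w = J' x y z w)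
    (hlam : ∀ B, (∀ x ∈ B, P x) → lam B = lam' B)
    (hF : ∀ B, (∀ x ∈ B, P x) → F B = F' B) (k : ℕ) (b : S) (W : List S)
    (hP : ∀ x ∈ b :: W, P x) : nuF J lam F k b W = nuF J' lam' F' k b W := by
  induction k generalizing W with
  | zero => exact hF _ hP
  | succ k ih =>
    rw [nuF_succ, nuF_succ]
    refine cs_congr W fun A B C _ hW => ?_
    have hb : P b := hP b (by simp)
    have hA : ∀ x ∈ b :: A, P x := fun x hx => hP x (by
      rw [← hW]; simp only [List.mem_cons, List.mem_append] at hx ⊢; tauto)
    have hB : ∀ x ∈ b :: B, P x := fun x hx => hP x (by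
      rw [← hW]; simp only [List.mem_cons, List.mem_append] at hx ⊢; tauto)
    have hC : ∀ x ∈ b :: C, P x := fun x hx => hP x (by
      rw [← hW]; simp only [List.mem_cons, List.mem_append] at hx ⊢; tauto)
    rw [hJ _ _ _ _ (hA _ (getLastD_mem A b)) (hB _ (headD_mem B b)) (hB _ (getLastD_mem B b))
      (hC _ (headD_mem C b)), hlam B (fun x hx => hB x (List.mem_cons_of_mem _ hx)), ih]
    intro x hx
    apply hP x
    rw [← hW]; simp only [List.mem_cons, List.mem_append] at hx ⊢; tauto

theorem getLastD_map (f : S → T) (A : List S) (b : S) :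
    (A.map f).getLastD (f b) = f (A.getLastD b) := by
  induction A generalizing b with
  | nil => rfl
  | cons a A ih => rw [List.map_cons, List.getLastD_cons, List.getLastD_cons, ih]

theorem headD_map (f : S → T) (A : List S) (b : S) :
    (A.map f).headD (f b) = f (A.headD b) := by
  cases A <;> rfl

theorem nuF_map [CommRing R] (f : S → T) (J : T → T → T → T → ℤ) (lam F : List T → R)
    (k : ℕ) (b : S) (W : List S) :
    nuF J lam F k (f b) (W.map f) =
      nuF (fun x y z w => J (f x) (f y) (f z) (f w)) (fun B => lam (B.map f))
        (fun B => F (B.map f)) k b W := by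
  induction k generalizing W with
  | zero => rfl
  | succ k ih =>
    rw [nuF_succ, nuF_succ, cs_map]
    refine cs_congr W fun A B C _ _ => ?_
    rw [getLastD_map, getLastD_map, headD_map, headD_map, ← List.map_append, ih]

theorem nu_map [CommRing R] (f : S → T) (J : T → T → T → T → ℤ) (lam : List T → R)
    (k : ℕ) (b : S) (W : List S) :
    nu J lam k (f b) (W.map f) =
      nu (fun x y z w => J (f x) (f y) (f z) (f w)) (fun B => lam (B.map f)) k b W := by
  rw [← nuF_self, ← nuF_self, nuF_map]

end Pool.Agent.Helper3.Cut
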