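import Pool.Agent.Helper3.Cut.Supp
import Pool.Agent.Helper21.Cut.Ports

/-! # The letters of the spiral and the leading coefficient (MP_86dbc7_gt, packet Q1b) -/

set_option autoImplicit false

namespace Pool.Agent.Helper3.Cut

open Pool.Agent.Helper21.Cut

variable {V X : Type*} {n : ℕ}

/-! ### letters -/

theorem ltr_eq (hn : 0 < n) (p q : ℕ) (hq : q < n * p) :
    ltr hn p q = (⟨q % n, Nat.mod_lt _ hn⟩, q / n) := by
  unfold ltr
  rw [Nat.mod_eq_of_lt (a := q / n)]
  exact Nat.div_lt_of_lt_mul hq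

theorem ltr_fst (hn : 0 < n) (p q : ℕ) : (ltr hn p q).1 = ⟨q % n, Nat.mod_lt _ hn⟩ := rfl

theorem ltr_snd_lt (hn : 0 < n) (p q : ℕ) (hp : 0 < p) : (ltr hn p q).2 < p := Nat.mod_lt _ hp

theorem ltr_add_period (hn : 0 < n) (p q : ℕ) : ltr hn p (q + n * p) = ltr hn p q := by
  unfold ltr
  have h1 : (q + n * p) % n = q % n := Nat.add_mul_mod_self_left q n p
  have h2 : (q + n * p) / n = q / n + p := Nat.add_mul_div_left q p hn
  simp only [h1, h2, Nat.add_mod_right]

theorem ltr_mod (hn : 0 < n) (p q : ℕ) : ltr hn p (q % (n * p)) = ltr hn p q := by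
  conv_rhs => rw [← Nat.mod_add_div q (n * p)]
  generalize q / (n * p) = t
  induction t with
  | zero => simp
  | succ t ih => rw [Nat.mul_succ, ← Nat.add_assoc, ltr_add_period, ← ih]

theorem ltr_inj (hn : 0 < n) (p q q' : ℕ) (hq : q < n * p) (hq' : q' < n * p)
    (h : ltr hn p q = ltr hn p q') : q = q' := by
  rw [ltr_eq hn p q hq, ltr_eq hn p q' hq'] at h
  have h1 : q % n = q' % n := by simpa using congrArg (fun x => (x.1 : Fin n).val) h
  have h2 : q / n = q' / n := congrArg Prod.snd h
  rw [← Nat.mod_add_div q n, ← Nat.mod_add_div q' n, h1, h2]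

/-- consecutive letters of the spiral -/
def wd (hn : 0 < n) (p s m : ℕ) : List (Fin n × ℕ) := (List.range m).map fun q => ltr hn p (s + q)

theorem wd_length (hn : 0 < n) (p s m : ℕ) : (wd hn p s m).length = m := by simp [wd]

theorem wd_getElem (hn : 0 < n) (p s m i : ℕ) (hi : i < (wd hn p s m).length) :
    (wd hn p s m)[i] = ltr hn p (s + i) := by simp [wd]

theorem wd_add (hn : 0 < n) (p s m m' : ℕ) :
    wd hn p s (m + m') = wd hn p s m ++ wd hn p (s + m) m' := by
  apply List.ext_getElem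
  · simp [wd_length]
  · intro i h1 h2
    rw [wd_getElem, List.getElem_append]
    split_ifs with h
    · rw [wd_getElem]
    · rw [wd_getElem]
      congr 1
      rw [wd_length] at h ⊢
      omega

theorem wd_succ (hn : 0 < n) (p s m : ℕ) :
    wd hn p s (m + 1) = ltr hn p s :: wd hn p (s + 1) m := by
  rw [Nat.add_comm m 1, wd_add]
  simp [wd]

theorem wd_zero (hn : 0 < n) (p s : ℕ) : wd hn p s 0 = [] := rfl

theorem wd_take (hn : 0 < n) (p s m i : ℕ) (hi : i ≤ m) :
    (wd hn p s m).take i = wd hn p s i := by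
  obtain ⟨d, rfl⟩ := Nat.exists_eq_add_of_le hi
  rw [wd_add, List.take_append_of_le_length (by rw [wd_length]),
    List.take_of_length_le (by rw [wd_length])]

theorem wd_drop (hn : 0 < n) (p s m i : ℕ) (hi : i ≤ m) :
    (wd hn p s m).drop i = wd hn p (s + i) (m - i) := by
  obtain ⟨d, rfl⟩ := Nat.exists_eq_add_of_le hi
  rw [wd_add, List.drop_append_of_le_length (by rw [wd_length]),
    List.drop_of_length_le (by rw [wd_length])]
  simp

theorem wd_getLastD (hn : 0 < n) (p s m : ℕ) (b : Fin n × ℕ) (hb : b = ltr hn p s) :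
    (wd hn p (s + 1) m).getLastD b = ltr hn p (s + m) := by
  cases m with
  | zero => rw [wd_zero, hb]; rfl
  | succ m =>
    rw [wd_add]
    simp [wd]
    congr 1; omega

theorem wd_headD (hn : 0 < n) (p s m : ℕ) (b : Fin n × ℕ) :
    (wd hn p s (m + 1)).headD b = ltr hn p s := by
  rw [wd_succ]; rfl

theorem wd_types (hn : 0 < n) (p a : ℕ) :
    (wd hn p (n * a) n).map Prod.fst = List.finRange n := by
  apply List.ext_getElem
  · simp [wd_length]
  · intro i h1 h2
    have hi : i < n := by simpa [wd_length] using h1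
    rw [List.getElem_map, wd_getElem, ltr_fst]
    ext
    simp [Nat.mod_eq_of_lt hi]

theorem wd_flatMap (hn : 0 < n) (p m : ℕ) (hm : m ≤ p) :
    wd hn p 0 (n * m) =
      (List.range m).flatMap fun a => (List.finRange n).map fun i => (i, a) := by
  induction m with
  | zero => simp [wd]
  | succ m ih =>
    rw [Nat.mul_succ, wd_add, ih (by omega), List.range_succ, List.flatMap_append]
    congr 1
    simp only [List.flatMap_cons, List.flatMap_nil, List.append_nil]
    apply List.ext_getElem
    · simp [wd_length]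
    · intro i h1 h2
      have hi : i < n := by simpa [wd_length] using h1
      rw [wd_getElem, Nat.zero_add, ltr_eq hn p _ (by
        calc n * m + i < n * m + n := by omega
          _ = n * (m + 1) := by ring
          _ ≤ n * p := Nat.mul_le_mul_left n hm)]
      ext
      · simp [Nat.mod_eq_of_lt hi]
      · simp [Nat.mul_add_div hn, Nat.div_eq_of_lt hi]

/-! ### crossing numbers -/

theorem lt_ports (K K' : ℝ) (a b : ℤ) (ha : 0 < a) (hb : 0 < b) :
    (K ≤ K' → toLex (K, -a) < toLex (K', b)) ∧ (K' < K → toLex (K', b) < toLex (K, -a)) := by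
  constructor
  · intro h
    rw [Prod.Lex.toLex_lt_toLex]
    rcases h.lt_or_eq with h | h
    · left; exact h
    · right; exact ⟨h, by simp; omega⟩
  · intro h
    rw [Prod.Lex.toLex_lt_toLex]
    left; exact h

/-- both pairs of ports are ordered in the same way -/
theorem lk_ports (K K' : ℝ) (a a' b b' : ℤ) (ha : 0 < a) (ha' : 0 < a') (hb : 0 < b) (hb' : 0 < b')
    (haa : a < a') :
    (b < b' → lk (toLex (K, -a) : ℝ ×ₗ ℤ) (toLex (K', b)) (toLex (K, -a')) (toLex (K', b')) = 0) ∧
    (b' < b → lk (toLex (K, -a) : ℝ ×ₗ ℤ) (toLex (K', b)) (toLex (K, -a')) (toLex (K', b')) = -1)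
    := by
  have hs : (toLex (K, -a') : ℝ ×ₗ ℤ) < toLex (K, -a) := by
    rw [Prod.Lex.toLex_lt_toLex]; right; exact ⟨rfl, by simp; omega⟩
  have ht : ∀ c c' : ℤ, c < c' → (toLex (K', c) : ℝ ×ₗ ℤ) < toLex (K', c') := by
    intro c c' h
    rw [Prod.Lex.toLex_lt_toLex]; right; exact ⟨rfl, h⟩
  rcases le_or_gt K K' with h | h
  · have h1 := (lt_ports K K' a b ha hb).1 h
    have h2 := (lt_ports K K' a b' ha hb').1 h
    have h3 := (lt_ports K K' a' b ha' hb).1 h
    constructor
    · intro hbb
      have h4 := ht _ _ hbb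
      unfold lk side
      rw [if_pos h1, if_pos h1, if_neg (fun hh => absurd hh.2 h4.not_gt),
        if_neg (fun hh => absurd hh.1 hs.not_gt)]
      rfl
    · intro hbb
      have h4 := ht _ _ hbb
      unfold lk side
      rw [if_pos h1, if_pos h1, if_pos ⟨h2, h4⟩, if_neg (fun hh => absurd hh.1 hs.not_gt)]
      rfl
  · have h1 := (lt_ports K K' a b ha hb).2 h
    have h2 := (lt_ports K K' a b' ha hb').2 h
    have h3 := (lt_ports K K' a' b ha' hb).2 h
    constructor
    · intro hbb
      have h4 := ht _ _ hbb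
      unfold lk side
      rw [if_neg h1.not_gt, if_neg h1.not_gt, if_pos ⟨h4, h2⟩, if_pos ⟨h3, hs⟩]
      rfl
    · intro hbb
      have h4 := ht _ _ hbb
      unfold lk side
      rw [if_neg h1.not_gt, if_neg h1.not_gt, if_neg (fun hh => absurd hh.1 h4.not_gt),
        if_pos ⟨h3, hs⟩]
      rfl

theorem Jg_gap (key : V → V → ℝ) (g : Fin n → Letter V X) (p : ℕ) (i i' : Fin n)
    (hv : (g i).v = (g i').u) (a b b' : ℕ) :
    (b < b' → Jg key g p (i, a) (i', b) (i, a + 1) (i', b') = 0) ∧
    (b' < b → Jg key g p (i, a) (i', b) (i, a + 1) (i', b') = -1) := by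
  unfold Jg
  rw [Jl_of_vertex key (by exact ⟨hv, rfl, hv⟩)]
  simp only [Letter.pin, Letter.pout, gl]
  have := lk_ports (key (g i).v (g i).u) (key (g i').u (g i').v) ((p : ℤ) * (i : ℕ) + a + 1)
    ((p : ℤ) * (i : ℕ) + (a + 1 : ℕ) + 1) ((p : ℤ) * (i' : ℕ) + b + 1)
    ((p : ℤ) * (i' : ℕ) + b' + 1) (by positivity) (by positivity) (by positivity) (by positivity)
    (by push_cast; omega)
  constructor
  · intro h
    exact this.1 (by push_cast; omega)
  · intro h
    exact this.2 (by push_cast; omega)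

end Pool.Agent.Helper3.Cut
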