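import Mathlib

/-! # Counting letters and bad successors in cyclic words (MP_86dbc7_gt, packet Q1b) -/

set_option autoImplicit false

namespace Pool.Agent.Helper3.Cut

section general

variable {α : Type*} [DecidableEq α]

/-- number of pairs of consecutive letters `k, y` with `y ≠ k'` in the walk `a :: l` -/
def pc (k k' : α) : α → List α → ℕ
  | _, [] => 0
  | a, x :: l => (if a = k ∧ x ≠ k' then 1 else 0) + pc k k' x l

theorem pc_append (k k' a : α) (l l' : List α) :
    pc k k' a (l ++ l') = pc k k' a l + pc k k' (l.getLastD a) l' := by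
  induction l generalizing a with
  | nil => simp [pc]
  | cons x l ih => rw [List.cons_append, pc, pc, ih, List.getLastD_cons]; ring

/-- the same for a closed word -/
def pcc (k k' : α) : List α → ℕ
  | [] => 0
  | a :: l => pc k k' a (l ++ [a])

theorem pcc_rotate_one (k k' : α) (l : List α) : pcc k k' (l.rotate 1) = pcc k k' l := by
  match l with
  | [] => rfl
  | [a] => rw [List.rotate_singleton]
  | a :: c :: l =>
    rw [List.rotate_cons_succ, List.rotate_zero, List.cons_append]
    have e1 : pcc k k' (c :: (l ++ [a])) = pc k k' c l +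
        ((if l.getLastD c = k ∧ a ≠ k' then 1 else 0) + ((if a = k ∧ c ≠ k' then 1 else 0) + 0)) := by
      rw [pcc, List.append_assoc, pc_append]; rfl
    have e2 : pcc k k' (a :: c :: l) = (if a = k ∧ c ≠ k' then 1 else 0) + (pc k k' c l +
        ((if l.getLastD c = k ∧ a ≠ k' then 1 else 0) + 0)) := by
      rw [pcc, List.cons_append, pc, pc_append]; rfl
    rw [e1, e2]
    omega

theorem pcc_rotate (k k' : α) (l : List α) (m : ℕ) : pcc k k' (l.rotate m) = pcc k k' l := by
  induction m with
  | zero => rw [List.rotate_zero]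
  | succ m ih => rw [← List.rotate_rotate, pcc_rotate_one, ih]

/-- the number of bad successors of `k` in a cyclic word -/
def dC (k k' : α) : Cycle α → ℕ :=
  Quotient.lift (pcc k k') (by
    rintro l _ ⟨m, rfl⟩
    exact (pcc_rotate k k' l m).symm)

/-- the number of letters `k` in a cyclic word -/
def nC (k : α) (c : Cycle α) : ℕ := c.toMultiset.count k

theorem dC_coe (k k' : α) (l : List α) : dC k k' (l : Cycle α) = pcc k k' l := rfl

theorem nC_coe (k : α) (l : List α) : nC k (l : Cycle α) = l.count k := by
  simp [nC]

theorem pcc_cut (k k' b : α) (A B C : List α) (hB : B ≠ []) :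
    pcc k k' B + pcc k k' (b :: (A ++ C)) ≤ pcc k k' (b :: (A ++ (B ++ C))) + 1 := by
  obtain ⟨y, B, rfl⟩ := List.exists_cons_of_ne_nil hB
  simp only [pcc, List.cons_append, List.append_assoc, pc_append]
  rcases C with _ | ⟨c, C⟩
  · simp only [List.nil_append, pc, List.getLastD_cons, List.append_nil, pc_append]
    split_ifs <;> grind
  · simp only [List.cons_append, pc, List.getLastD_cons, pc_append]
    split_ifs <;> grind

theorem count_le_pcc (k k' : α) (l : List α) : l.count k ≤ pcc k k' l + l.count k' := by
  have key : ∀ (a : α) (l : List α), (a :: l).dropLast.count k ≤ pc k k' a l + l.count k' := by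
    intro a l
    induction l generalizing a with
    | nil => simp
    | cons x l ih =>
      have := ih x
      rw [List.dropLast_cons_cons, List.count_cons, pc, List.count_cons]
      simp only [beq_iff_eq]
      by_cases h1 : a = k <;> by_cases h2 : x = k'
      · rw [if_pos h1, if_neg (fun h => h.2 h2), if_pos h2]; omega
      · rw [if_pos h1, if_pos ⟨h1, h2⟩, if_neg h2]; omega
      · rw [if_neg h1, if_neg (fun h => h1 h.1), if_pos h2]; omega
      · rw [if_neg h1, if_neg (fun h => h1 h.1), if_neg h2]; omega
  cases l with
  | nil => simp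
  | cons a l =>
    have := key a (l ++ [a])
    rw [← List.cons_append, List.dropLast_concat] at this
    simp only [pcc]
    have h2 : (l ++ [a]).count k' = (a :: l).count k' := by
      simp [List.count_append, List.count_cons]
    omega

end general

section fin

variable {n : ℕ}

/-- cyclic successor -/
def sc (hn : 0 < n) (k : Fin n) : Fin n := ⟨(k + 1) % n, Nat.mod_lt _ hn⟩

theorem pc_eq_zero {α : Type*} [DecidableEq α] (s : α → α) (a : α) (l : List α)
    (h : ∀ k, pc k (s k) a l = 0) : List.IsChain (fun x y => y = s x) (a :: l) := by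
  induction l generalizing a with
  | nil => exact List.isChain_singleton _
  | cons x l ih =>
    have hx : x = s a := by
      have := h a
      rw [pc] at this
      by_contra hne
      simp [hne] at this
    refine List.IsChain.cons_cons hx (ih x fun k => ?_)
    have := h k
    rw [pc] at this
    omega

/-- the full turn -/
theorem eq_full (hn : 0 < n) (c : Cycle (Fin n)) (h1 : ∀ k, nC k c = 1)
    (h2 : ∀ k, dC k (sc hn k) c = 0) : c = ((List.finRange n : List (Fin n)) : Cycle (Fin n)) := by
  induction c using Quotient.inductionOn with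
  | h l =>
  change (l : Cycle (Fin n)) = _
  have h1' : ∀ k, l.count k = 1 := fun k => by
    have := h1 k
    exact (nC_coe k l).symm.trans this
  have h2' : ∀ k, pcc k (sc hn k) l = 0 := h2
  -- rotate so that the first letter is 0
  have h0 : (⟨0, hn⟩ : Fin n) ∈ l := by
    rw [← List.count_pos_iff, h1']; exact one_pos
  obtain ⟨l1, l2, rfl⟩ := List.append_of_mem h0
  have hrot : (l1 ++ ⟨0, hn⟩ :: l2) ~r (⟨0, hn⟩ :: (l2 ++ l1)) := by
    have := List.isRotated_append (l := l1) (l' := (⟨0, hn⟩ :: l2))
    simpa using this
  rw [Cycle.coe_eq_coe.2 hrot]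
  have h1'' : ∀ k, (⟨0, hn⟩ :: (l2 ++ l1)).count k = 1 := fun k => by
    rw [← h1' k]; exact (hrot.perm.count_eq k).symm
  have h2'' : ∀ k, pcc k (sc hn k) (⟨0, hn⟩ :: (l2 ++ l1)) = 0 := fun k => by
    have h3 := h2' k
    obtain ⟨m, hm⟩ := hrot
    rw [← hm, pcc_rotate]
    exact h3
  generalize l2 ++ l1 = l' at h1'' h2''
  congr 1
  have hch : List.IsChain (fun x y => y = sc hn x) (⟨0, hn⟩ :: (l' ++ [⟨0, hn⟩])) :=
    pc_eq_zero (sc hn) _ _ h2''
  have hlen : (⟨0, hn⟩ :: l' : List (Fin n)).length = n := by
    have hnd : (⟨0, hn⟩ :: l' : List (Fin n)).Nodup :=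
      List.nodup_iff_count_eq_one.2 fun a _ => h1'' a
    have : (⟨0, hn⟩ :: l' : List (Fin n)).toFinset = Finset.univ := by
      ext k
      simp only [List.mem_toFinset, Finset.mem_univ, iff_true]
      rw [← List.count_pos_iff, h1'']; exact one_pos
    rw [← List.toFinset_card_of_nodup hnd, this, Finset.card_univ, Fintype.card_fin]
  have hget : ∀ i (hi : i < (⟨0, hn⟩ :: l' : List (Fin n)).length),
      ((⟨0, hn⟩ :: l' : List (Fin n))[i]).val = i := by
    intro i
    induction i with
    | zero => intro _; rfl
    | succ i ih =>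
      intro hi
      have h3 := ih (by omega)
      rw [List.isChain_iff_getElem] at hch
      have h4 := hch i (by simp at hi ⊢; omega)
      have e1 : (⟨0, hn⟩ :: (l' ++ [⟨0, hn⟩]) : List (Fin n))[i]'(by simp at hi ⊢; omega) =
          (⟨0, hn⟩ :: l' : List (Fin n))[i]'(by omega) := by
        simp only [← List.cons_append]
        rw [List.getElem_append_left]
      have e2 : (⟨0, hn⟩ :: (l' ++ [⟨0, hn⟩]) : List (Fin n))[i + 1]'(by simp at hi ⊢; omega) =
          (⟨0, hn⟩ :: l' : List (Fin n))[i + 1]'hi := by
        simp only [← List.cons_append]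
        rw [List.getElem_append_left]
      rw [e1, e2] at h4
      rw [h4]
      simp only [sc, h3]
      rw [hlen] at hi
      exact Nat.mod_eq_of_lt hi
  apply List.ext_getElem
  · rw [hlen, List.length_finRange]
  · intro i hi _
    ext
    rw [hget i hi]
    simp

end fin

end Pool.Agent.Helper3.Cut
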