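import Pool.Agent.Helper3.Cut.Power

/-! # The power formula (MP_86dbc7_gt, packet Q1b): assembly -/

set_option autoImplicit false

namespace Pool.Agent.Helper3.Cut

open Pool.Agent.Helper21.Cut MvPolynomial

variable {V Z : Type*} {n : ℕ}

/-- the statement of packet Q1a -/
def SpiralVanish (key : V → V → ℝ) (p n : ℕ) (hn : 0 < n) (g : Fin n → Letter V Z) : Prop :=
  ∀ {R : Type} [CommRing R] [CharP R p] (L G : Cycle (Fin n) → R) (k : Fin n),
    ∑ a ∈ Finset.range p, nuF (Jg key g p) (fun B => L ((B.map Prod.fst : List (Fin n)) : Cycle (Fin n)))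
      (fun B => G ((B.map Prod.fst : List (Fin n)) : Cycle (Fin n))) (p - 1) (k, a)
      ((List.range (n * p - 1)).map fun q => ltr hn p (k + a * n + 1 + q)) = 0

theorem Ty_rot (A B : List (Fin n × ℕ)) : Ty (A ++ B) = Ty (B ++ A) := by
  unfold Ty
  rw [Cycle.coe_eq_coe, List.map_append, List.map_append]
  exact List.isRotated_append

theorem wd_nodup (hn : 0 < n) (p s : ℕ) (hp : 0 < p) : (wd hn p s (n * p)).Nodup := by
  unfold wd
  rw [List.nodup_map_iff_inj_on List.nodup_range]
  intro x hx y hy h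
  rw [List.mem_range] at hx hy
  have hpos : 0 < n * p := by positivity
  have h1 := ltr_inj hn p ((s + x) % (n * p)) ((s + y) % (n * p)) (Nat.mod_lt _ hpos)
    (Nat.mod_lt _ hpos) (by rw [ltr_mod, ltr_mod]; exact h)
  have h2 : (s + x) ≡ (s + y) [MOD (n * p)] := h1
  have h3 : x ≡ y [MOD (n * p)] := Nat.ModEq.add_left_cancel' s h2
  have h4 : x % (n * p) = y % (n * p) := h3
  rwa [Nat.mod_eq_of_lt hx, Nat.mod_eq_of_lt hy] at h4

theorem wd_rotate (hn : 0 < n) (p s : ℕ) (hp : 0 < p) :
    (wd hn p 0 (n * p)).rotate s = wd hn p s (n * p) := by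
  have h1 : ∀ s, (wd hn p s (n * p)).rotate 1 = wd hn p (s + 1) (n * p) := by
    intro s
    have hpos : 0 < n * p := by positivity
    rw [wd_pos hn p s _ hpos, List.rotate_cons_succ, List.rotate_zero]
    conv_rhs => rw [show n * p = (n * p - 1) + 1 by omega, wd_add]
    congr 1
    simp only [wd, List.range_one, List.map_cons, List.map_nil, Nat.add_zero]
    rw [show s + 1 + (n * p - 1) = s + n * p by omega, ltr_add_period]
  induction s with
  | zero => rw [List.rotate_zero]
  | succ s ih => rw [← List.rotate_rotate, ih, h1]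

theorem wd_snd_lt (hn : 0 < n) (p s m : ℕ) (hp : 0 < p) : ∀ x ∈ wd hn p s m, x.2 < p := by
  intro x hx
  unfold wd at hx
  rw [List.mem_map] at hx
  obtain ⟨q, _, rfl⟩ := hx
  exact ltr_snd_lt hn p _ hp

theorem ltr_index (hn : 0 < n) (p : ℕ) (k : Fin n) (a : ℕ) (ha : a < p) :
    ltr hn p (k + a * n) = (k, a) := by
  have hlt : (k : ℕ) + a * n < n * p := by
    calc (k : ℕ) + a * n < n + a * n := by have := k.2; omega
      _ = n * (a + 1) := by ring
      _ ≤ n * p := Nat.mul_le_mul_left n ha
  rw [ltr_eq hn p _ hlt]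
  ext
  · simp [Nat.mod_eq_of_lt k.2]
  · simp [Nat.add_mul_div_right _ _ hn, Nat.div_eq_of_lt k.2]

theorem mem_wd (hn : 0 < n) (p : ℕ) (hp : 0 < p) (x : Fin n × ℕ) :
    x ∈ wd hn p 0 (n * p) ↔ x.2 < p := by
  constructor
  · exact wd_snd_lt hn p 0 _ hp x
  · intro h
    unfold wd
    rw [List.mem_map]
    refine ⟨x.1 + x.2 * n, ?_, ?_⟩
    · rw [List.mem_range]
      calc (x.1 : ℕ) + x.2 * n < n + x.2 * n := by have := x.1.2; omega
        _ = n * (x.2 + 1) := by ring
        _ ≤ n * p := Nat.mul_le_mul_left n h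
    · rw [Nat.zero_add, ltr_index hn p x.1 x.2 h]

section main

variable (key : V → V → ℝ) (p : ℕ) [hpf : Fact p.Prime] (hn : 0 < n) (g : Fin n → Letter V Z)

/-- the universal polynomial -/
noncomputable def PP : MvPolynomial (Cycle (Fin n)) (ZMod p) :=
  nu (Jg key g p) (fun B => X (Ty B)) (p - 1) (ltr hn p 0) (wd hn p 1 (n * p - 1))

theorem w_cons : ltr hn p 0 :: wd hn p 1 (n * p - 1) = wd hn p 0 (n * p) := by
  have hpos : 0 < n * p := by have := hpf.out.pos; positivity
  exact (wd_pos hn p 0 _ hpos).symm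

open Classical in
/-- moving the base point to the marked letter -/
theorem nu_move (x : Cycle (Fin n)) (k : Fin n) (a : ℕ) (ha : a < p) :
    nu (Jg key g p) (fun B => if (k, a) ∈ B then
        (if Ty B = x then (X x : MvPolynomial (Cycle (Fin n)) (ZMod p)) else 0) else X (Ty B))
      (p - 1) (ltr hn p 0) (wd hn p 1 (n * p - 1)) =
    nuF (Jg key g p) (fun B => X (Ty B))
      (fun B => if Ty B = x then (X x : MvPolynomial (Cycle (Fin n)) (ZMod p)) else 0)
      (p - 1) (k, a) (wd hn p (k + a * n + 1) (n * p - 1)) := by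
  have hp := hpf.out
  have hpos : 0 < n * p := by have := hp.pos; positivity
  set lamk : List (Fin n × ℕ) → MvPolynomial (Cycle (Fin n)) (ZMod p) := fun B =>
    if (k, a) ∈ B then (if Ty B = x then X x else 0) else X (Ty B) with hlamk
  have hrot : ∀ A B, lamk (A ++ B) = lamk (B ++ A) := by
    intro A B
    simp only [hlamk, List.mem_append, Ty_rot A B, or_comm]
  have hcongr : ∀ b W, (∀ x ∈ b :: W, x.2 < p) →
      nu (Jg key g p) lamk (p - 1) b W = nu (Jp key g p) lamk (p - 1) b W := by
    intro b W hW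
    rw [← nuF_self, ← nuF_self]
    exact nuF_congr (fun x => x.2 < p) (fun _ _ _ _ => Jp_eq key g p _ _ _ _)
      (fun _ _ => rfl) (fun _ _ => rfl) _ _ _ hW
  have hbc : ∀ x y W, (x :: y :: W).Nodup →
      nu (Jp key g p) lamk (p - 1) x (y :: W) = nu (Jp key g p) lamk (p - 1) y (W ++ [x]) :=
    fun x y W h => base_change_prime hp (Jp key g p) lamk (Jp_antisymm key g p)
      (Jp_quad key g p) hrot x y W h
  have h1 : nuC (Jp key g p) lamk (p - 1) (wd hn p 0 (n * p)) =
      nuC (Jp key g p) lamk (p - 1) (wd hn p (k + a * n) (n * p)) := by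
    rw [← wd_rotate hn p (k + a * n) hp.pos]
    exact (nuC_rotate hbc _ (wd_nodup hn p 0 hp.pos) _).symm
  rw [hcongr _ _ (by rw [w_cons]; exact wd_snd_lt hn p 0 _ hp.pos)]
  have h2 : nu (Jp key g p) lamk (p - 1) (ltr hn p 0) (wd hn p 1 (n * p - 1)) =
      nuC (Jp key g p) lamk (p - 1) (wd hn p 0 (n * p)) := by rw [← w_cons]; rfl
  have h3 : wd hn p (k + a * n) (n * p) = (k, a) :: wd hn p (k + a * n + 1) (n * p - 1) := by
    rw [wd_pos hn p _ _ hpos, ltr_index hn p k a ha]
  rw [h2, h1, h3]
  change nu (Jp key g p) lamk (p - 1) (k, a) _ = _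
  rw [← hcongr _ _ (by rw [← h3]; exact wd_snd_lt hn p _ _ hp.pos)]
  have hnd : ((k, a) :: wd hn p (k + a * n + 1) (n * p - 1)).Nodup := by
    rw [← h3]; exact wd_nodup hn p _ hp.pos
  refine nu_marked_base (Jg key g p) (fun B => X (Ty B)) lamk _ (k, a) ?_ ?_ (p - 1) _
    (List.nodup_cons.1 hnd).1
  · intro B hB
    simp only [hlamk, if_neg hB]
  · intro B
    simp only [hlamk, List.mem_cons, true_or, if_true]

open Classical in
theorem E_PP (hsv : SpiralVanish key p n hn g) (x : Cycle (Fin n)) (k : Fin n) :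
    ((nC k x : ℕ) : MvPolynomial (Cycle (Fin n)) (ZMod p)) *
      (X x * pderiv x (PP key p hn g)) = 0 := by
  have hp := hpf.out
  let E : MvPolynomial (Cycle (Fin n)) (ZMod p) →+ MvPolynomial (Cycle (Fin n)) (ZMod p) :=
    { toFun := fun f => ((nC k x : ℕ) : MvPolynomial (Cycle (Fin n)) (ZMod p)) *
        (X x * pderiv x f)
      map_zero' := by simp
      map_add' := fun f f' => by rw [map_add]; ring }
  have hE : ∀ f, E f = ((nC k x : ℕ) : MvPolynomial (Cycle (Fin n)) (ZMod p)) *
        (X x * pderiv x f) := fun _ => rfl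
  let lamk : Fin n × ℕ → List (Fin n × ℕ) → MvPolynomial (Cycle (Fin n)) (ZMod p) :=
    fun κ B => if κ ∈ B then (if Ty B = x then X x else 0) else X (Ty B)
  have key1 := mark E (fun f f' => by
      rw [hE, hE, hE, Derivation.leibniz, smul_eq_mul, smul_eq_mul]; ring)
    (Jg key g p) (fun B => X (Ty B)) lamk (fun κ => κ.1 = k) ?_ ?_ (p - 1) (ltr hn p 0)
    (wd hn p 1 (n * p - 1)) (by rw [w_cons]; exact wd_nodup hn p 0 hp.pos)
  · have e1 : E (PP key p hn g) = ((nC k x : ℕ) : MvPolynomial (Cycle (Fin n)) (ZMod p)) *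
      (X x * pderiv x (PP key p hn g)) := rfl
    rw [← e1]
    refine key1.trans ?_
    rw [w_cons]
    refine (Finset.sum_congr (s₂ := (Finset.range p).image fun a => (k, a)) ?_
      (fun _ _ => rfl)).trans ?_
    · ext κ
      simp only [Finset.mem_filter, List.mem_toFinset, mem_wd hn p hp.pos, Finset.mem_image,
        Finset.mem_range]
      constructor
      · rintro ⟨h1, rfl⟩; exact ⟨κ.2, h1, rfl⟩
      · rintro ⟨a, ha, rfl⟩; exact ⟨ha, rfl⟩
    rw [Finset.sum_image (fun a _ b _ h => (Prod.ext_iff.1 h).2)]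
    have h2 := hsv (R := MvPolynomial (Cycle (Fin n)) (ZMod p)) (fun c => X c)
      (fun c => if c = x then X x else 0) k
    rw [← h2]
    refine Finset.sum_congr rfl fun a ha => ?_
    exact nu_move key p hn g x k a (Finset.mem_range.1 ha)
  · intro B hB
    rw [hE, pderiv_X]
    have hcard : (B.toFinset.filter fun κ => κ.1 = k).card = nC k (Ty B) := by
      unfold Ty
      rw [nC_coe]
      have : (B.toFinset.filter fun κ => κ.1 = k) = (B.filter fun κ => κ.1 = k).toFinset := by
        ext κ; simp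
      rw [this, List.toFinset_card_of_nodup (hB.filter _), List.count_eq_countP,
        List.countP_map, List.countP_eq_length_filter]
      rfl
    rw [Finset.sum_congr rfl (g := fun _ => if Ty B = x then X x else 0)]
    · rw [Finset.sum_const, hcard, nsmul_eq_mul]
      by_cases h : Ty B = x
      · subst h; simp
      · rw [if_neg h, Pi.single_apply, if_neg (fun hh => h hh)]; simp
    · intro κ hκ
      simp only [Finset.mem_filter, List.mem_toFinset] at hκ
      simp only [lamk, if_pos hκ.1]
  · intro κ B hκ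
    simp only [lamk, if_neg hκ]

end main

/-! ### the word of types -/

theorem count_types (hn : 0 < n) (p m : ℕ) (k : Fin n) :
    ((wd hn p 0 (n * m)).map Prod.fst).count k = m := by
  induction m with
  | zero => simp [wd]
  | succ m ih =>
    rw [Nat.mul_succ, wd_add, List.map_append, List.count_append, ih, Nat.zero_add, wd_types]
    congr 1
    exact List.count_eq_one_of_mem (List.nodup_finRange n) (List.mem_finRange k)

theorem pc_types (hn : 0 < n) (p s m : ℕ) (k : Fin n) :
    pc k (sc hn k) (ltr hn p s).1 ((wd hn p (s + 1) m).map Prod.fst) = 0 := by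
  induction m generalizing s with
  | zero => rfl
  | succ m ih =>
    rw [wd_succ, List.map_cons, pc, ih, if_neg]
    rintro ⟨rfl, h⟩
    apply h
    ext
    simp [ltr_fst, sc]

theorem pcc_types (hn : 0 < n) (p : ℕ) (hp : 0 < p) (k : Fin n) :
    pcc k (sc hn k) ((wd hn p 0 (n * p)).map Prod.fst) = 0 := by
  have hpos : 0 < n * p := by positivity
  rw [wd_pos hn p 0 _ hpos, List.map_cons, pcc]
  have : (wd hn p (0 + 1) (n * p - 1)).map Prod.fst ++ [(ltr hn p 0).1] =
      (wd hn p (0 + 1) (n * p)).map Prod.fst := by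
    conv_rhs => rw [show n * p = (n * p - 1) + 1 by omega, wd_add]
    rw [List.map_append]
    congr 1
    simp only [wd, List.range_one, List.map_cons, List.map_nil, Nat.add_zero]
    rw [show 0 + 1 + (n * p - 1) = 0 + n * p by omega, ltr_add_period]
  rw [this]
  exact pc_types hn p 0 _ k

section main

variable (key : V → V → ℝ) (p : ℕ) [hpf : Fact p.Prime] (hn : 0 < n) (g : Fin n → Letter V Z)

theorem PP_support (hsv : SpiralVanish key p n hn g) (m : Cycle (Fin n) →₀ ℕ)
    (hm : coeff m (PP key p hn g) ≠ 0) : m = Finsupp.single (gam n) p := by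
  have hp := hpf.out
  have h1 := nu_supp (R := ZMod p) hn (Jg key g p) (p - 1) (ltr hn p 0) (wd hn p 1 (n * p - 1))
  rw [w_cons] at h1
  rw [mem_restrictSupport_iff] at h1
  have h2 : Q hn (p - 1) ((wd hn p 0 (n * p)).map Prod.fst) m :=
    h1 (by rw [Finset.mem_coe, mem_support_iff]; exact hm)
  refine monomial_eq hp hn _ (fun k => count_types hn p p k) (fun k => pcc_types hn p hp.pos k)
    m h2 ?_
  intro x k
  have h3 := congrArg (coeff m) (E_PP key p hn g hsv x k)
  rw [← C_eq_coe_nat, coeff_C_mul, coeff_X_mul_pderiv, coeff_zero, ← mul_assoc] at h3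
  have h4 := (mul_eq_zero.1 h3).resolve_right hm
  rw [← Nat.cast_mul, ZMod.natCast_eq_zero_iff, mul_comm] at h4
  exact h4

theorem PP_eq (hsv : SpiralVanish key p n hn g) : PP key p hn g =
    monomial (Finsupp.single (gam n) p) (coeff (Finsupp.single (gam n) p) (PP key p hn g)) := by
  ext m
  rw [coeff_monomial]
  split_ifs with h
  · rw [h]
  · by_contra hc
    exact h (PP_support key p hn g hsv m hc).symm

theorem eval_PP (hsv : SpiralVanish key p n hn g) (v : Cycle (Fin n) → ZMod p) :
    nu (Jg key g p) (fun B => v (Ty B)) (p - 1) (ltr hn p 0) (wd hn p 1 (n * p - 1)) =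
      coeff (Finsupp.single (gam n) p) (PP key p hn g) * v (gam n) ^ p := by
  have h1 : eval v (PP key p hn g) =
      nu (Jg key g p) (fun B => v (Ty B)) (p - 1) (ltr hn p 0) (wd hn p 1 (n * p - 1)) := by
    unfold PP
    rw [nu_hom]
    simp only [eval_X]
  rw [← h1]
  conv_lhs => rw [PP_eq key p hn g hsv]
  rw [eval_monomial, Finsupp.prod_single_index (h := fun c e => v c ^ e) (pow_zero _)]

theorem coef_one (hsv : SpiralVanish key p n hn g)
    (hg : ∀ i : Fin n, (g i).v = (g ⟨(i + 1) % n, Nat.mod_lt _ hn⟩).u) :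
    coeff (Finsupp.single (gam n) p) (PP key p hn g) = 1 := by
  classical
  have hp := hpf.out
  have h1 := eval_PP key p hn g hsv (fun c => if c = gam n then 1 else 0)
  rw [if_pos rfl, one_pow, mul_one] at h1
  have h2 := lead_coef (R := ZMod p) key hn g hg p (fun B => if Ty B = gam n then 1 else 0)
    (fun B hB => if_neg hB) (fun B hB => if_pos hB) (p - 1)
    (by rw [Nat.sub_add_cancel hp.one_lt.le])
  rw [Nat.sub_add_cancel hp.one_lt.le] at h2
  rw [← h1, h2]
  exact ZMod.pow_card_sub_one_eq_one (neg_ne_zero.2 one_ne_zero)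

theorem power_formula_of (hsv : SpiralVanish key p n hn g)
    (hg : ∀ i : Fin n, (g i).v = (g ⟨(i + 1) % n, Nat.mod_lt _ hn⟩).u)
    (lab : List Z → ZMod p) (hrot : ∀ A B, lab (A ++ B) = lab (B ++ A)) :
    NN key lab (p - 1) ((List.range p).flatMap fun a =>
      (List.finRange n).map fun i => gl g p (i, a)) =
    lab ((List.finRange n).map fun i => (g i).z) ^ p := by
  have hp := hpf.out
  have hw : ((List.range p).flatMap fun a => (List.finRange n).map fun i => gl g p (i, a)) =
      (wd hn p 0 (n * p)).map (gl g p) := by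
    rw [wd_flatMap hn p p le_rfl, List.map_flatMap]
    simp only [List.map_map]; rfl
  let v : Cycle (Fin n) → ZMod p := Quotient.lift (fun l => lab (l.map fun i => (g i).z)) (by
    rintro l _ ⟨m, rfl⟩
    rw [List.rotate_eq_drop_append_take_mod, List.map_append, hrot, ← List.map_append,
      List.take_append_drop])
  have hv : ∀ l : List (Fin n), v (l : Cycle (Fin n)) = lab (l.map fun i => (g i).z) :=
    fun _ => rfl
  rw [hw, ← w_cons, List.map_cons]
  change nu (Jl key) _ (p - 1) _ _ = _
  rw [nu_map]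
  have h1 : nu (fun x y z w => Jl key (gl g p x) (gl g p y) (gl g p z) (gl g p w))
      (fun B => lab ((B.map (gl g p)).map Letter.z)) (p - 1) (ltr hn p 0)
      (wd hn p 1 (n * p - 1)) =
      nu (Jg key g p) (fun B => v (Ty B)) (p - 1) (ltr hn p 0) (wd hn p 1 (n * p - 1)) := by
    rw [← nuF_self, ← nuF_self]
    refine nuF_congr (fun _ => True) (fun _ _ _ _ _ _ _ _ => rfl) (fun B _ => ?_) (fun B _ => ?_)
      _ _ _ (fun _ _ => trivial)
    · rw [Ty, hv, List.map_map, List.map_map]; rfl
    · rw [Ty, hv, List.map_map, List.map_map]; rfl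
  rw [h1, eval_PP key p hn g hsv, coef_one key p hn g hsv hg, one_mul, gam, hv]

end main

end Pool.Agent.Helper3.Cut
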