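import Pool.Agent.Helper3.Cut.Coef

/-! # The leading coefficient (MP_86dbc7_gt, packet Q1b) -/

set_option autoImplicit false

namespace Pool.Agent.Helper3.Cut

open Pool.Agent.Helper21.Cut

variable {V X : Type*} {n : ℕ}

theorem wd_pos (hn : 0 < n) (p s m : ℕ) (hm : 0 < m) :
    wd hn p s m = ltr hn p s :: wd hn p (s + 1) (m - 1) := by
  obtain ⟨m, rfl⟩ := Nat.exists_eq_succ_of_ne_zero hm.ne'
  exact wd_succ hn p s m

/-- the full turn -/
def gam (n : ℕ) : Cycle (Fin n) := ((List.finRange n : List (Fin n)) : Cycle (Fin n))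

theorem lead_coef {R : Type*} [CommRing R] (key : V → V → ℝ) (hn : 0 < n) (g : Fin n → Letter V X)
    (hg : ∀ i : Fin n, (g i).v = (g ⟨(i + 1) % n, Nat.mod_lt _ hn⟩).u) (p : ℕ)
    (lam0 : List (Fin n × ℕ) → R) (h0 : ∀ B, Ty B ≠ gam n → lam0 B = 0)
    (h1 : ∀ B, Ty B = gam n → lam0 B = 1) (m : ℕ) (hm : m + 1 ≤ p) :
    nu (Jg key g p) lam0 m (ltr hn p 0) (wd hn p 1 (n * (m + 1) - 1)) = (-1) ^ m := by
  induction m with
  | zero =>
    have hw : (ltr hn p 0 :: wd hn p 1 (n * (0 + 1) - 1)) = wd hn p (n * 0) n := by
      have := wd_succ hn p 0 (n - 1)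
      rw [Nat.sub_add_cancel hn] at this
      rw [Nat.mul_zero, this]; simp
    change lam0 _ = _
    rw [hw, h1, pow_zero]
    unfold Ty gam
    rw [wd_types]
  | succ m ih =>
    have hL : n * (m + 1 + 1) - 1 = (n * (m + 1) - 1) + n := by
      have : 0 < n * (m + 1) := by positivity
      rw [Nat.mul_succ]; omega
    have hpos : 0 < n * (m + 1) := by positivity
    have hle : n * (m + 1 + 1) ≤ n * p := Nat.mul_le_mul_left n hm
    have hlen : (wd hn p 1 (n * (m + 1 + 1) - 1)).length = n * (m + 1) - 1 + n := by
      rw [wd_length, hL]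
    rw [nu_succ, cs_eq_sum, hlen, hL]
    set N := n * (m + 1) - 1 with hN
    have hle' : N + 1 + n ≤ n * p := by
      have : n * (m + 1 + 1) = n * (m + 1) + n := Nat.mul_succ n (m + 1)
      omega
    rw [Finset.sum_eq_single N, Finset.sum_eq_single (n - 1)]
    · -- the main term
      have e1 : (wd hn p 1 (N + n)).take N = wd hn p 1 N := wd_take hn p 1 _ _ (by omega)
      have e2 : (wd hn p 1 (N + n)).drop N = wd hn p (1 + N) n := by
        rw [wd_drop hn p 1 _ _ (by omega)]; congr 1; omega
      have e3 : (wd hn p (1 + N) n).take (n - 1 + 1) = wd hn p (1 + N) n := by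
        rw [wd_take hn p _ _ _ (by omega)]; congr 1; omega
      have e4 : (wd hn p (1 + N) n).drop (n - 1 + 1) = [] := by
        rw [wd_drop hn p _ _ _ (by omega)]
        have : n - (n - 1 + 1) = 0 := by omega
        rw [this, wd_zero]
      rw [e1, e2, e3, e4, List.append_nil, ih (by omega)]
      have f1 : (wd hn p 1 N).getLastD (ltr hn p 0) = ltr hn p N := by
        have := wd_getLastD hn p 0 N (ltr hn p 0) rfl
        rwa [Nat.zero_add, Nat.zero_add] at this
      have f2 : (wd hn p (1 + N) n).headD (ltr hn p 0) = ltr hn p (1 + N) := by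
        have := wd_headD hn p (1 + N) (n - 1) (ltr hn p 0)
        rwa [Nat.sub_add_cancel hn] at this
      have f3 : (wd hn p (1 + N) n).getLastD (ltr hn p 0) = ltr hn p (N + n) := by
        have e5 : wd hn p (1 + N) n = ltr hn p (1 + N) :: wd hn p (1 + N + 1) (n - 1) :=
          wd_pos hn p _ _ hn
        rw [e5, List.getLastD_cons, wd_getLastD hn p (1 + N) (n - 1) _ rfl]
        congr 1; omega
      have f4 : ([] : List (Fin n × ℕ)).headD (ltr hn p 0) = ltr hn p 0 := rfl
      rw [f1, f2, f3, f4, h1 _ (by
        unfold Ty gam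
        have : 1 + N = n * (m + 1) := by omega
        rw [this, wd_types]), mul_one]
      have hNmod : N % n = n - 1 := by
        have : N = n * m + (n - 1) := by
          have : n * (m + 1) = n * m + n := Nat.mul_succ n m
          omega
        rw [this, Nat.mul_add_mod, Nat.mod_eq_of_lt (by omega)]
      have hNdiv : N / n = m := by
        have : N = n * m + (n - 1) := by
          have : n * (m + 1) = n * m + n := Nat.mul_succ n m
          omega
        rw [this, Nat.mul_add_div hn, Nat.div_eq_of_lt (by omega), Nat.add_zero]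
      have g1 : ltr hn p N = (⟨n - 1, by omega⟩, m) := by
        rw [ltr_eq hn p N (by omega)]
        simp only [hNmod, hNdiv]
      have g2 : ltr hn p (1 + N) = (⟨0, hn⟩, m + 1) := by
        have : 1 + N = n * (m + 1) := by omega
        rw [ltr_eq hn p _ (by omega), this]
        simp only [Nat.mul_mod_right, Nat.mul_div_cancel_left _ hn]
      have g3 : ltr hn p (N + n) = (⟨n - 1, by omega⟩, m + 1) := by
        rw [ltr_eq hn p _ (by omega)]
        simp only [Nat.add_mod_right, hNmod, Nat.add_div_right _ hn, hNdiv]
      have g4 : ltr hn p 0 = (⟨0, hn⟩, 0) := by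
        rw [ltr_eq hn p 0 (by omega)]; simp
      rw [g1, g2, g3, g4]
      have hv : (g ⟨n - 1, by omega⟩).v = (g ⟨0, hn⟩).u := by
        have := hg ⟨n - 1, by omega⟩
        simp only [Nat.sub_add_cancel hn, Nat.mod_self] at this
        exact this
      rw [(Jg_gap key g p ⟨n - 1, by omega⟩ ⟨0, hn⟩ hv m (m + 1) 0).2 (by omega)]
      rw [pow_succ]; push_cast; ring
    · -- j ≠ n - 1
      intro j hj hjn
      have : Ty (((wd hn p 1 (N + n)).drop N).take (j + 1)) ≠ gam n := by
        intro h
        have h2 := congrArg Cycle.length h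
        simp only [Ty, gam, Cycle.length_coe, List.length_map, List.length_take,
          List.length_drop, wd_length, List.length_finRange] at h2
        rw [Finset.mem_range] at hj
        omega
      rw [h0 _ this, mul_zero, zero_mul]
    · intro h
      exact absurd (Finset.mem_range.2 (by omega)) h
    · -- i ≠ N
      intro i hi hiN
      rw [Finset.mem_range] at hi
      refine Finset.sum_eq_zero fun j hj => ?_
      rw [Finset.mem_range] at hj
      by_cases hjn : j = n - 1
      · subst hjn
        have hi' : i < N := by omega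
        have e1 : (wd hn p 1 (N + n)).take i = wd hn p 1 i := wd_take hn p 1 _ _ (by omega)
        have e2 : (wd hn p 1 (N + n)).drop i = wd hn p (1 + i) (N + n - i) :=
          wd_drop hn p 1 _ _ (by omega)
        have e3 : (wd hn p (1 + i) (N + n - i)).take (n - 1 + 1) = wd hn p (1 + i) n := by
          rw [wd_take hn p _ _ _ (by omega)]; congr 1; omega
        have e4 : (wd hn p (1 + i) (N + n - i)).drop (n - 1 + 1) =
            ltr hn p (i + n + 1) :: wd hn p (i + n + 1 + 1) (N - i - 1) := by
          rw [wd_drop hn p _ _ _ (by omega)]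
          have a1 : N + n - i - (n - 1 + 1) = (N - i - 1) + 1 := by omega
          have a2 : 1 + i + (n - 1 + 1) = i + n + 1 := by omega
          rw [a1, a2, wd_succ]
        rw [e1, e2, e3, e4]
        have f1 : (wd hn p 1 i).getLastD (ltr hn p 0) = ltr hn p i := by
          have := wd_getLastD hn p 0 i (ltr hn p 0) rfl
          rwa [Nat.zero_add, Nat.zero_add] at this
        have f2 : (wd hn p (1 + i) n).headD (ltr hn p 0) = ltr hn p (1 + i) := by
          have := wd_headD hn p (1 + i) (n - 1) (ltr hn p 0)
          rwa [Nat.sub_add_cancel hn] at this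
        have f3 : (wd hn p (1 + i) n).getLastD (ltr hn p 0) = ltr hn p (i + n) := by
          have e5 : wd hn p (1 + i) n = ltr hn p (1 + i) :: wd hn p (1 + i + 1) (n - 1) :=
            wd_pos hn p _ _ hn
          rw [e5, List.getLastD_cons, wd_getLastD hn p (1 + i) (n - 1) _ rfl]
          congr 1; omega
        rw [f1, f2, f3, List.headD_cons]
        have g1 : ltr hn p i = (⟨i % n, Nat.mod_lt _ hn⟩, i / n) := ltr_eq hn p i (by omega)
        have g2 : ltr hn p (1 + i) = (⟨(i + 1) % n, Nat.mod_lt _ hn⟩, (i + 1) / n) := by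
          rw [Nat.add_comm 1 i]; exact ltr_eq hn p _ (by omega)
        have g3 : ltr hn p (i + n) = (⟨i % n, Nat.mod_lt _ hn⟩, i / n + 1) := by
          rw [ltr_eq hn p _ (by omega)]
          simp only [Nat.add_mod_right, Nat.add_div_right _ hn]
        have g4 : ltr hn p (i + n + 1) =
            (⟨(i + 1) % n, Nat.mod_lt _ hn⟩, (i + 1) / n + 1) := by
          rw [show i + n + 1 = i + 1 + n by omega, ltr_eq hn p _ (by omega)]
          simp only [Nat.add_mod_right, Nat.add_div_right _ hn]
        rw [g1, g2, g3, g4]
        have hv : (g ⟨i % n, Nat.mod_lt _ hn⟩).v = (g ⟨(i + 1) % n, Nat.mod_lt _ hn⟩).u := by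
          have := hg ⟨i % n, Nat.mod_lt _ hn⟩
          simp only [Nat.mod_add_mod] at this
          exact this
        rw [(Jg_gap key g p _ _ hv (i / n) ((i + 1) / n) ((i + 1) / n + 1)).1 (by omega)]
        simp
      · have : Ty (((wd hn p 1 (N + n)).drop i).take (j + 1)) ≠ gam n := by
          intro h
          have h2 := congrArg Cycle.length h
          simp only [Ty, gam, Cycle.length_coe, List.length_map, List.length_take,
            List.length_drop, wd_length, List.length_finRange] at h2
          omega
        rw [h0 _ this, mul_zero, zero_mul]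
    · intro h
      exact absurd (Finset.mem_range.2 (by omega)) h

end Pool.Agent.Helper3.Cut
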