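import Pool.Agent.Helper3.Cut.Basic

/-! # Rotation of the base point and marked letters (MP_86dbc7_gt, packet Q1b) -/

set_option autoImplicit false

namespace Pool.Agent.Helper3.Cut

open Pool.Agent.Helper21.Cut

variable {S T R R' : Type*}

theorem nuC_rotate [CommRing R] {J : S → S → S → S → ℤ} {lam : List S → R} {k : ℕ}
    (hbc : ∀ x y W, (x :: y :: W).Nodup → nu J lam k x (y :: W) = nu J lam k y (W ++ [x]))
    (l : List S) (hl : l.Nodup) (m : ℕ) : nuC J lam k (l.rotate m) = nuC J lam k l := by
  have h1 : ∀ l : List S, l.Nodup → nuC J lam k (l.rotate 1) = nuC J lam k l := by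
    intro l hl
    match l, hl with
    | [], _ => rfl
    | [a], _ => rw [List.rotate_singleton]
    | a :: c :: W, hl =>
      rw [List.rotate_cons_succ, List.rotate_zero]
      exact (hbc a c W hl).symm
  induction m with
  | zero => rw [List.rotate_zero]
  | succ m ih =>
    rw [← List.rotate_rotate, h1 _ (List.nodup_rotate.2 hl), ih]

/-- A derivation applied to `nu` puts a mark on one letter. -/
theorem mark [CommRing R] [DecidableEq S] (E : R →+ R)
    (hE : ∀ x y, E (x * y) = E x * y + x * E y)
    (J : S → S → S → S → ℤ) (lam : List S → R) (lamk : S → List S → R) (Q : S → Prop)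
    [DecidablePred Q]
    (h1 : ∀ B : List S, B.Nodup → E (lam B) = ∑ κ ∈ B.toFinset.filter Q, lamk κ B)
    (h2 : ∀ (κ : S) (B : List S), κ ∉ B → lamk κ B = lam B) (j : ℕ) (b : S) (W : List S)
    (hW : (b :: W).Nodup) :
    E (nu J lam j b W) = ∑ κ ∈ (b :: W).toFinset.filter Q, nu J (lamk κ) j b W := by
  have hE1 : E 1 = 0 := by
    have := hE 1 1
    simpa using this
  have hEz : ∀ z : ℤ, E (z : R) = 0 := by
    intro z
    have : (z : R) = z • (1 : R) := by simp
    rw [this, map_zsmul, hE1, smul_zero]
  induction j generalizing W with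
  | zero => exact h1 _ hW
  | succ j ih =>
    rw [nu_succ]
    simp only [nu_succ]
    rw [cs_hom, ← cs_sum]
    refine cs_congr W fun A B C hB hABC => ?_
    have hperm : (b :: W).Perm (B ++ (b :: (A ++ C))) := by
      rw [← hABC]
      have : (A ++ (B ++ C)).Perm (B ++ (A ++ C)) := by
        rw [← List.append_assoc, ← List.append_assoc]
        exact List.perm_append_comm.append_right C
      exact (this.cons b).trans List.perm_middle.symm
    have hnd : (B ++ (b :: (A ++ C))).Nodup := hperm.nodup_iff.1 hW
    have hBnd : B.Nodup := (List.nodup_append.1 hnd).1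
    have hrnd : (b :: (A ++ C)).Nodup := (List.nodup_append.1 hnd).2.1
    have hdis : ∀ κ, κ ∈ B → κ ∉ b :: (A ++ C) := by
      intro κ h1 h2
      exact (List.disjoint_of_nodup_append hnd) h1 h2
    have hset : (b :: W).toFinset.filter Q =
        B.toFinset.filter Q ∪ (b :: (A ++ C)).toFinset.filter Q := by
      rw [← Finset.filter_union, ← List.toFinset_append]
      congr 1
      exact List.toFinset_eq_of_perm _ _ hperm
    rw [hset, Finset.sum_union]
    swap
    · rw [Finset.disjoint_left]
      intro κ hκ hκ'
      simp only [Finset.mem_filter, List.mem_toFinset] at hκ hκ'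
      exact hdis κ hκ.1 hκ'.1
    set z : ℤ := J (A.getLastD b) (B.headD b) (B.getLastD b) (C.headD b)
    rw [hE, hE, hEz, zero_mul, zero_add, h1 B hBnd, ih (A ++ C) hrnd]
    congr 1
    · rw [Finset.mul_sum, Finset.sum_mul]
      refine Finset.sum_congr rfl fun κ hκ => ?_
      simp only [Finset.mem_filter, List.mem_toFinset] at hκ
      congr 1
      rw [← nuF_self, ← nuF_self]
      refine nuF_congr (fun x => x ≠ κ) (fun _ _ _ _ _ _ _ _ => rfl)
        (fun B' hB' => ?_) (fun B' hB' => ?_) j b (A ++ C) ?_
      · exact (h2 κ B' fun h => hB' κ h rfl).symm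
      · exact (h2 κ B' fun h => hB' κ h rfl).symm
      · intro x hx hxk
        subst hxk
        exact hdis x hκ.1 hx
    · rw [Finset.mul_sum]
      refine Finset.sum_congr rfl fun κ hκ => ?_
      simp only [Finset.mem_filter, List.mem_toFinset] at hκ
      rw [h2 κ B fun h => hdis κ h hκ.1]

/-- If the base point is marked then only the last loop sees the mark. -/
theorem nu_marked_base [CommRing R] (J : S → S → S → S → ℤ) (lam lamκ F : List S → R) (κ : S)
    (h1 : ∀ B : List S, κ ∉ B → lamκ B = lam B) (h2 : ∀ B : List S, lamκ (κ :: B) = F (κ :: B))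
    (j : ℕ) (W : List S) (hW : κ ∉ W) : nu J lamκ j κ W = nuF J lam F j κ W := by
  induction j generalizing W with
  | zero => exact h2 W
  | succ j ih =>
    rw [nu_succ, nuF_succ]
    refine cs_congr W fun A B C hB hABC => ?_
    have hB' : κ ∉ B := fun h => hW (by rw [← hABC]; simp [h])
    have hAC : κ ∉ A ++ C := fun h => hW (by
      rw [← hABC]; simp only [List.mem_append] at h ⊢; tauto)
    rw [h1 B hB', ih _ hAC]

end Pool.Agent.Helper3.Cut
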