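import Pool.Agent.Helper3.Cut.Lead
import Pool.Agent.Helper21.Cut.BaseChange

/-! # The power formula (MP_86dbc7_gt, packet Q1b) -/

set_option autoImplicit false

namespace Pool.Agent.Helper3.Cut

open Pool.Agent.Helper21.Cut MvPolynomial

variable {V X : Type*} {n : ℕ}

/-! ### the monomial -/

theorem wt_erase (f : Cycle (Fin n) → ℕ) (m : Cycle (Fin n) →₀ ℕ) (x : Cycle (Fin n)) :
    wt f m = m x * f x + wt f (m.erase x) := by
  conv_lhs => rw [← Finsupp.single_add_erase x m]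
  rw [wt_add, wt_single]

theorem le_wt (f : Cycle (Fin n) → ℕ) (m : Cycle (Fin n) →₀ ℕ) (x : Cycle (Fin n)) :
    m x * f x ≤ wt f m := by
  rw [wt_erase f m x]; exact Nat.le_add_right _ _

theorem two_le_wt (f : Cycle (Fin n) → ℕ) (m : Cycle (Fin n) →₀ ℕ) {x y : Cycle (Fin n)}
    (h : x ≠ y) : m x * f x + m y * f y ≤ wt f m := by
  rw [wt_erase f m x]
  have := le_wt f (m.erase x) y
  rw [Finsupp.erase_ne h.symm] at this
  omega

theorem exists_of_wt (f : Cycle (Fin n) → ℕ) (m : Cycle (Fin n) →₀ ℕ) (h : wt f m ≠ 0) :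
    ∃ x, m x * f x ≠ 0 := by
  by_contra hc
  push Not at hc
  exact h (Finset.sum_eq_zero fun x _ => hc x)

theorem monomial_eq {p : ℕ} (hp : p.Prime) (hn : 0 < n) (w : List (Fin n))
    (hcount : ∀ k, w.count k = p) (hpcc : ∀ k, pcc k (sc hn k) w = 0)
    (m : Cycle (Fin n) →₀ ℕ) (h : Q hn (p - 1) w m) (hdiv : ∀ x k, p ∣ m x * nC k x) :
    m = Finsupp.single (gam n) p := by
  have hp1 : p - 1 + 1 = p := Nat.sub_add_cancel hp.one_lt.le
  have hp2 := hp.two_le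
  have hcnt : ∀ k, wt (nC k) m = p := fun k => by rw [h.cnt, hcount]
  have hdeg : wt (fun _ => 1) m = p := by rw [h.deg, hp1]
  have hF1 : ∀ x k, m x * nC k x ≠ 0 → m x * nC k x = p := by
    intro x k hne
    have h1 := le_wt (nC k) m x
    rw [hcnt] at h1
    exact le_antisymm h1 (Nat.le_of_dvd (Nat.pos_of_ne_zero hne) (hdiv x k))
  have hF2 : ∀ x y k, x ≠ y → m x * nC k x = p → m y * nC k y = 0 := by
    intro x y k hxy hx
    have h1 := two_le_wt (nC k) m hxy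
    rw [hcnt, hx] at h1
    omega
  obtain ⟨x0, hx0⟩ := exists_of_wt (nC ⟨0, hn⟩) m (by rw [hcnt]; exact hp.ne_zero)
  have hx0p := hF1 _ _ hx0
  have hdvd : m x0 ∣ p := ⟨_, hx0p.symm⟩
  have hbad : ∀ k, m x0 * dC k (sc hn k) x0 ≤ p - 1 := by
    intro k
    have h1 := le_wt (dC k (sc hn k)) m x0
    have h2 := h.bad k
    rw [hpcc] at h2
    omega
  rcases (Nat.dvd_prime hp).1 hdvd with h1 | h1
  · -- m x0 = 1
    exfalso
    have hall : ∀ k (hk : k < n), nC ⟨k, hk⟩ x0 = p := by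
      intro k
      induction k with
      | zero => intro hk; rw [h1, one_mul] at hx0p; exact hx0p
      | succ k ih =>
        intro hk
        by_contra hne
        have h3 : nC ⟨k + 1, hk⟩ x0 = 0 := by
          by_contra h4
          have := hF1 x0 ⟨k + 1, hk⟩ (by rw [h1, one_mul]; exact h4)
          rw [h1, one_mul] at this
          exact hne this
        have hk' : k < n := by omega
        have h5 : sc hn ⟨k, hk'⟩ = ⟨k + 1, hk⟩ := by
          unfold sc; ext; exact Nat.mod_eq_of_lt hk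
        have h6 := hbad ⟨k, hk'⟩
        rw [h1, one_mul, h5] at h6
        have h7 : nC ⟨k, hk'⟩ x0 ≤ dC ⟨k, hk'⟩ ⟨k + 1, hk⟩ x0 + nC ⟨k + 1, hk⟩ x0 := by
          induction x0 using Quotient.inductionOn with
          | h l =>
          change nC _ (l : Cycle (Fin n)) ≤ dC _ _ (l : Cycle (Fin n)) + nC _ (l : Cycle (Fin n))
          rw [nC_coe, dC_coe, nC_coe]
          exact count_le_pcc _ _ l
        rw [ih hk', h3] at h7
        omega
    have h8 := wt_erase (fun _ => 1) m x0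
    rw [hdeg, h1] at h8
    obtain ⟨x, hx⟩ := exists_of_wt (fun _ => 1) (m.erase x0) (by omega)
    have hxne : x ≠ x0 := by
      rintro rfl
      rw [Finsupp.erase_same] at hx; simp at hx
    rw [Finsupp.erase_ne hxne, mul_one] at hx
    have h9 : ∀ k, nC k x = 0 := by
      intro k
      have := hF2 x0 x k hxne.symm (by rw [h1, one_mul]; exact hall k.1 k.2)
      rcases Nat.mul_eq_zero.1 this with h | h
      · exact absurd h hx
      · exact h
    have h10 : x = Cycle.nil := by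
      induction x using Quotient.inductionOn with
      | h l =>
      change (l : Cycle (Fin n)) = _
      rw [Cycle.coe_eq_nil]
      cases l with
      | nil => rfl
      | cons a l =>
        have := h9 a
        change nC a ((a :: l : List (Fin n)) : Cycle (Fin n)) = 0 at this
        rw [nC_coe] at this
        simp at this
    exact hx (by rw [h10]; exact h.ne)
  · -- m x0 = p
    have h2 : m = Finsupp.single x0 p := by
      ext x
      rw [Finsupp.single_apply]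
      split_ifs with hx
      · rw [← hx, h1]
      · have := two_le_wt (fun _ => 1) m hx
        rw [hdeg, h1] at this
        omega
    have h3 : ∀ k, nC k x0 = 1 := by
      intro k
      have := hcnt k
      rw [h2, wt_single] at this
      exact Nat.eq_of_mul_eq_mul_left hp.pos (by rw [this, mul_one])
    have h4 : ∀ k, dC k (sc hn k) x0 = 0 := by
      intro k
      have := hbad k
      rw [h1] at this
      by_contra h5
      have : p * 1 ≤ p * dC k (sc hn k) x0 := Nat.mul_le_mul_left p (Nat.pos_of_ne_zero h5)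
      omega
    rw [h2, eq_full hn x0 h3 h4, gam]

/-! ### base change -/

open Classical in
/-- crossing numbers, only for the letters of the spiral -/
noncomputable def Jp (key : V → V → ℝ) (g : Fin n → Letter V X) (p : ℕ) (x y z w : Fin n × ℕ) : ℤ :=
  if x.2 < p ∧ y.2 < p ∧ z.2 < p ∧ w.2 < p then Jg key g p x y z w else 0

theorem gl_inj (g : Fin n → Letter V X) {p : ℕ} {x z : Fin n × ℕ} (hx : x.2 < p)
    (hz : z.2 < p) (h : x ≠ z) : (gl g p x).y ≠ (gl g p z).y := by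
  intro he
  simp only [gl] at he
  have h1 : p * x.1.val + x.2 = p * z.1.val + z.2 := by zify; linarith
  have h2 : x.1.val = z.1.val := by
    have e1 : (p * x.1.val + x.2) / p = x.1.val := by
      rw [Nat.mul_add_div (by omega), Nat.div_eq_of_lt hx, Nat.add_zero]
    have e2 : (p * z.1.val + z.2) / p = z.1.val := by
      rw [Nat.mul_add_div (by omega), Nat.div_eq_of_lt hz, Nat.add_zero]
    rw [← e1, h1, e2]
  have h3 : x.2 = z.2 := by rw [h2] at h1; omega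
  exact h (Prod.ext (Fin.ext h2) h3)

theorem gl_pos (g : Fin n → Letter V X) (p : ℕ) (x : Fin n × ℕ) : 0 < (gl g p x).y := by
  simp only [gl]; positivity

theorem Jp_antisymm (key : V → V → ℝ) (g : Fin n → Letter V X) (p : ℕ) (x y z w : Fin n × ℕ)
    (h1 : x ≠ z) (h2 : y ≠ w) : Jp key g p x y z w = - Jp key g p z w x y := by
  unfold Jp
  by_cases h : x.2 < p ∧ y.2 < p ∧ z.2 < p ∧ w.2 < p
  · rw [if_pos h, if_pos (by tauto)]
    exact Jl_antisymm key _ _ _ _ (gl_inj g h.1 h.2.2.1 h1) (gl_inj g h.2.1 h.2.2.2 h2)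
      (gl_pos g p x) (gl_pos g p y) (gl_pos g p z) (gl_pos g p w)
  · rw [if_neg h, if_neg (by tauto), neg_zero]

theorem Jp_quad (key : V → V → ℝ) (g : Fin n → Letter V X) (p : ℕ)
    (x₁ x₂ x₃ y₁ y₂ y₃ : Fin n × ℕ) (h12 : x₁ ≠ x₂) (h23 : x₂ ≠ x₃) (h13 : x₁ ≠ x₃)
    (k12 : y₁ ≠ y₂) (k23 : y₂ ≠ y₃) (k13 : y₁ ≠ y₃) :
    Jp key g p x₁ y₁ x₂ y₂ * Jp key g p x₁ y₂ x₃ y₃ + Jp key g p x₂ y₂ x₃ y₃ *
      Jp key g p x₂ y₃ x₁ y₁ + Jp key g p x₃ y₃ x₁ y₁ * Jp key g p x₃ y₁ x₂ y₂ = 0 := by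
  by_cases h : x₁.2 < p ∧ x₂.2 < p ∧ x₃.2 < p ∧ y₁.2 < p ∧ y₂.2 < p ∧ y₃.2 < p
  · obtain ⟨hx1, hx2, hx3, hy1, hy2, hy3⟩ := h
    unfold Jp
    rw [if_pos ⟨hx1, hy1, hx2, hy2⟩, if_pos ⟨hx1, hy2, hx3, hy3⟩, if_pos ⟨hx2, hy2, hx3, hy3⟩,
      if_pos ⟨hx2, hy3, hx1, hy1⟩, if_pos ⟨hx3, hy3, hx1, hy1⟩, if_pos ⟨hx3, hy1, hx2, hy2⟩]
    exact Jl_quad key _ _ _ _ _ _ (gl_inj g hx1 hx2 h12) (gl_inj g hx2 hx3 h23)
      (gl_inj g hx1 hx3 h13) (gl_inj g hy1 hy2 k12) (gl_inj g hy2 hy3 k23) (gl_inj g hy1 hy3 k13)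
      (gl_pos g p _) (gl_pos g p _) (gl_pos g p _) (gl_pos g p _) (gl_pos g p _) (gl_pos g p _)
  · have a1 : Jp key g p x₁ y₁ x₂ y₂ * Jp key g p x₁ y₂ x₃ y₃ = 0 := by
      unfold Jp
      by_cases c1 : x₁.2 < p ∧ y₁.2 < p ∧ x₂.2 < p ∧ y₂.2 < p
      · rw [if_neg (c := x₁.2 < p ∧ y₂.2 < p ∧ x₃.2 < p ∧ y₃.2 < p) (by tauto), mul_zero]
      · rw [if_neg c1, zero_mul]
    have a2 : Jp key g p x₂ y₂ x₃ y₃ * Jp key g p x₂ y₃ x₁ y₁ = 0 := by
      unfold Jp
      by_cases c1 : x₂.2 < p ∧ y₂.2 < p ∧ x₃.2 < p ∧ y₃.2 < p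
      · rw [if_neg (c := x₂.2 < p ∧ y₃.2 < p ∧ x₁.2 < p ∧ y₁.2 < p) (by tauto), mul_zero]
      · rw [if_neg c1, zero_mul]
    have a3 : Jp key g p x₃ y₃ x₁ y₁ * Jp key g p x₃ y₁ x₂ y₂ = 0 := by
      unfold Jp
      by_cases c1 : x₃.2 < p ∧ y₃.2 < p ∧ x₁.2 < p ∧ y₁.2 < p
      · rw [if_neg (c := x₃.2 < p ∧ y₁.2 < p ∧ x₂.2 < p ∧ y₂.2 < p) (by tauto), mul_zero]
      · rw [if_neg c1, zero_mul]
    rw [a1, a2, a3]; rfl

theorem Jp_eq (key : V → V → ℝ) (g : Fin n → Letter V X) (p : ℕ) (x y z w : Fin n × ℕ)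
    (hx : x.2 < p) (hy : y.2 < p) (hz : z.2 < p) (hw : w.2 < p) :
    Jg key g p x y z w = Jp key g p x y z w := by
  unfold Jp; rw [if_pos ⟨hx, hy, hz, hw⟩]

end Pool.Agent.Helper3.Cut
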