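import Pool.Agent.Helper3.Cut.Marks
import Pool.Agent.Helper3.Cut.Cyc

/-! # Support of the universal cut polynomial (MP_86dbc7_gt, packet Q1b) -/

set_option autoImplicit false

namespace Pool.Agent.Helper3.Cut

open Pool.Agent.Helper21.Cut MvPolynomial
open scoped Pointwise

variable {n : ℕ} {R : Type*} [CommRing R]

/-- cyclic type word -/
def Ty (B : List (Fin n × ℕ)) : Cycle (Fin n) := ((B.map Prod.fst : List (Fin n)) : Cycle (Fin n))

/-- weighted degree -/
def wt (f : Cycle (Fin n) → ℕ) (m : Cycle (Fin n) →₀ ℕ) : ℕ := m.sum fun x e => e * f x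

theorem wt_add (f : Cycle (Fin n) → ℕ) (m m' : Cycle (Fin n) →₀ ℕ) :
    wt f (m + m') = wt f m + wt f m' := by
  unfold wt
  exact Finsupp.sum_add_index' (fun _ => by simp) (fun _ _ _ => by ring)

theorem wt_single (f : Cycle (Fin n) → ℕ) (c : Cycle (Fin n)) (e : ℕ) :
    wt f (Finsupp.single c e) = e * f c := by
  unfold wt
  exact Finsupp.sum_single_index (by simp)

/-- what we know about the monomials -/
structure Q (hn : 0 < n) (j : ℕ) (w : List (Fin n)) (m : Cycle (Fin n) →₀ ℕ) : Prop where
  deg : wt (fun _ => 1) m = j + 1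
  ne : m Cycle.nil = 0
  cnt : ∀ k, wt (nC k) m = w.count k
  bad : ∀ k, wt (dC k (sc hn k)) m ≤ pcc k (sc hn k) w + j

theorem coe_ne_nil {l : List (Fin n)} (h : l ≠ []) : (l : Cycle (Fin n)) ≠ Cycle.nil := by
  intro h'
  rw [Cycle.coe_eq_nil] at h'
  exact h h'

theorem Q_zero (hn : 0 < n) (w : List (Fin n)) (hw : w ≠ []) :
    Q hn 0 w (Finsupp.single (w : Cycle (Fin n)) 1) where
  deg := by rw [wt_single]
  ne := by
    rw [Finsupp.single_apply, if_neg (coe_ne_nil hw)]
  cnt := fun k => by rw [wt_single, nC_coe, one_mul]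
  bad := fun k => by rw [wt_single, dC_coe, one_mul, add_zero]

theorem Q_succ (hn : 0 < n) (j : ℕ) (b : Fin n) (A B C : List (Fin n)) (hB : B ≠ [])
    (m : Cycle (Fin n) →₀ ℕ) (h : Q hn j (b :: (A ++ C)) m) :
    Q hn (j + 1) (b :: (A ++ (B ++ C))) (Finsupp.single (B : Cycle (Fin n)) 1 + m) where
  deg := by rw [wt_add, wt_single, h.deg]; ring
  ne := by
    rw [Finsupp.add_apply, h.ne, Finsupp.single_apply, if_neg (coe_ne_nil hB)]
  cnt := fun k => by
    rw [wt_add, wt_single, h.cnt, nC_coe, one_mul]
    simp only [List.count_cons, List.count_append]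
    ring
  bad := fun k => by
    rw [wt_add, wt_single, dC_coe, one_mul]
    have h1 := h.bad k
    have h2 := pcc_cut k (sc hn k) b A B C hB
    omega

theorem X_mul_mem {σ : Type*} (s s' : Set (σ →₀ ℕ)) (c : σ)
    (h : ∀ m ∈ s', Finsupp.single c 1 + m ∈ s) (f : MvPolynomial σ R)
    (hf : f ∈ restrictSupport R s') : X c * f ∈ restrictSupport R s := by
  have h1 : (X c : MvPolynomial σ R) ∈ restrictSupport R {Finsupp.single c 1} := by
    unfold X
    rw [monomial_mem_restrictSupport]; left; rfl
  have h2 : X c * f ∈ restrictSupport R (({Finsupp.single c 1} : Set (σ →₀ ℕ)) + s') := by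
    rw [restrictSupport_add]; exact Submodule.mul_mem_mul h1 hf
  refine restrictSupport_mono (R := R) ?_ h2
  rintro _ ⟨a, rfl, m, hm, rfl⟩
  exact h m hm

theorem nu_supp (hn : 0 < n) (J : Fin n × ℕ → Fin n × ℕ → Fin n × ℕ → Fin n × ℕ → ℤ) (j : ℕ)
    (b : Fin n × ℕ) (W : List (Fin n × ℕ)) :
    nu J (fun B => (X (Ty B) : MvPolynomial (Cycle (Fin n)) R)) j b W ∈
      restrictSupport R {m | Q hn j ((b :: W).map Prod.fst) m} := by
  induction j generalizing W with
  | zero =>
    change (X (Ty (b :: W)) : MvPolynomial (Cycle (Fin n)) R) ∈ _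
    unfold X
    rw [monomial_mem_restrictSupport]; left
    exact Q_zero hn _ (by simp)
  | succ j ih =>
    rw [nu_succ]
    refine cs_mem (restrictSupport R _).toAddSubmonoid W fun A B C hB hW => ?_
    rw [mul_assoc, ← zsmul_eq_mul]
    change _ ∈ restrictSupport R _
    apply zsmul_mem
    refine X_mul_mem _ _ _ ?_ _ (ih (A ++ C))
    intro m hm
    have := Q_succ hn j b.1 (A.map Prod.fst) (B.map Prod.fst) (C.map Prod.fst) (by simpa using hB)
      m (by simpa using hm)
    rw [← hW]
    simpa [Ty] using this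

theorem coeff_X_mul_pderiv {σ : Type*} (c : σ) (f : MvPolynomial σ R) (m : σ →₀ ℕ) :
    coeff m (X c * pderiv c f) = (m c : R) * coeff m f := by
  classical
  induction f using MvPolynomial.induction_on' with
  | monomial s a =>
    rw [pderiv_monomial, X, monomial_mul, one_mul, coeff_monomial, coeff_monomial]
    by_cases h0 : s c = 0
    · rw [h0]
      by_cases h : s = m
      · subst h; rw [h0]; simp
      · simp [h]
    · have : Finsupp.single c 1 + (s - Finsupp.single c 1) = s := by
        ext x
        simp only [Finsupp.add_apply, Finsupp.tsub_apply, Finsupp.single_apply]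
        split_ifs with h
        · subst h; omega
        · omega
      rw [this]
      by_cases h : s = m
      · subst h; simp [mul_comm]
      · simp [h]
  | add p q hp hq =>
    rw [map_add, mul_add, coeff_add, hp, hq, coeff_add, mul_add]

end Pool.Agent.Helper3.Cut
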